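import Mathlib

/-!
# H81A (MP_443e5f, candidate T, module A): Heath-Brown's identity in seminorm form. Definitions

`N` is a natural number, `p` a seminorm on the functions `ℕ → ℝ` which only sees the values at `1, …, N`. If `p` is small (`≤ X`) on all pieces of the three kinds

* `H2`: Dirichlet convolutions of two bounded coefficient sequences in dyadic intervals, one of them in the range `[N ^ c, N ^ (1 / 2 - η)]`,
* `H1`: (bounded coefficients up to `N ^ (2 c)`) times (indicator of an interval),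
* `H3`: (bounded coefficients up to `N ^ (2 c)`) times two indicators of intervals in `[N ^ (1 / 2 - 2 η), N ^ (1 / 2 + 2 η)]`,

then `p Λ ≤ N ^ ε X` (file `Final.lean`). See `PROOF.md`.
-/

namespace Pool.Agent.Lib.H81A

open Finset ArithmeticFunction

/-- The arithmetic function with the values `f n`, `n ≥ 1`. -/
noncomputable def af (f : ℕ → ℝ) : ArithmeticFunction ℝ := ⟨fun n => if n = 0 then 0 else f n, by simp⟩

theorem af_apply (f : ℕ → ℝ) {n : ℕ} (hn : n ≠ 0) : af f n = f n := by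
  show (if n = 0 then 0 else f n) = f n
  rw [if_neg hn]

/-- The truncated Möbius function. -/
noncomputable def muV (z : ℕ) : ArithmeticFunction ℝ := af (fun a => if a ≤ z then (moebius a : ℝ) else 0)

/-- The constant function `1`. -/
noncomputable def one1 : ArithmeticFunction ℝ := af (fun _ => 1)

/-- The logarithm. -/
noncomputable def logf : ArithmeticFunction ℝ := af (fun n => Real.log n)

/-- The restriction to the dyadic interval `[2 ^ k, 2 ^ (k + 1))`. -/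
noncomputable def dy (k : ℕ) (f : ArithmeticFunction ℝ) : ArithmeticFunction ℝ := af (fun n => if 2 ^ k ≤ n ∧ n < 2 ^ (k + 1) then f n else 0)

theorem dy_apply (k : ℕ) (f : ArithmeticFunction ℝ) (n : ℕ) : dy k f n = if 2 ^ k ≤ n ∧ n < 2 ^ (k + 1) then f n else 0 := by
  rcases eq_or_ne n 0 with rfl | hn
  · rw [ArithmeticFunction.map_zero, ArithmeticFunction.map_zero, ite_self]
  · exact af_apply _ hn

/-- The seminorm sees only the values at `1, …, N`. -/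
def Loc (N : ℕ) (p : Seminorm ℝ (ℕ → ℝ)) : Prop := ∀ P : ℕ → ℝ, (∀ m, 1 ≤ m → m ≤ N → P m = 0) → p P = 0

/-- The bound for the pieces with two variables and bounded coefficients (`Type II`). -/
def H2 (c η : ℝ) (N : ℕ) (p : Seminorm ℝ (ℕ → ℝ)) (X : ℝ) : Prop :=
  ∀ K M : ℝ, (N : ℝ) ^ c ≤ K → K ≤ (N : ℝ) ^ (1 / 2 - η) → 1 ≤ M → ∀ α β : ℕ → ℝ, (∀ a, |α a| ≤ 1) → (∀ b, |β b| ≤ 1) →
    (∀ a : ℕ, α a ≠ 0 → K ≤ a ∧ (a : ℝ) ≤ 2 * K) → (∀ b : ℕ, β b ≠ 0 → M ≤ b ∧ (b : ℝ) ≤ 2 * M) →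
      p (fun m => ∑ x ∈ m.divisorsAntidiagonal, α x.1 * β x.2) ≤ X

/-- The bound for the pieces with one smooth variable (`Type I`). -/
def H1 (c : ℝ) (N : ℕ) (p : Seminorm ℝ (ℕ → ℝ)) (X : ℝ) : Prop :=
  ∀ B₁ B₂ : ℕ, 1 ≤ B₁ → B₂ ≤ 2 * B₁ → ∀ γ : ℕ → ℝ, (∀ q, |γ q| ≤ 1) → (∀ q : ℕ, γ q ≠ 0 → 1 ≤ q ∧ (q : ℝ) ≤ (N : ℝ) ^ (2 * c)) →
    p (fun m => ∑ x ∈ m.divisorsAntidiagonal, γ x.1 * (if B₁ ≤ x.2 ∧ x.2 < B₂ then 1 else 0)) ≤ X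

/-- The bound for the pieces with two smooth variables near `N ^ (1 / 2)` (near-diagonal pieces). -/
def H3 (c η : ℝ) (N : ℕ) (p : Seminorm ℝ (ℕ → ℝ)) (X : ℝ) : Prop :=
  ∀ A₁ A₂ B₁ B₂ : ℕ, (N : ℝ) ^ (1 / 2 - 2 * η) ≤ A₁ → (A₂ : ℝ) ≤ (N : ℝ) ^ (1 / 2 + 2 * η) → (N : ℝ) ^ (1 / 2 - 2 * η) ≤ B₁ →
    (B₂ : ℝ) ≤ (N : ℝ) ^ (1 / 2 + 2 * η) → A₂ ≤ 2 * A₁ → B₂ ≤ 2 * B₁ → ∀ γ : ℕ → ℝ, (∀ q, |γ q| ≤ 1) → (∀ q : ℕ, γ q ≠ 0 → 1 ≤ q ∧ (q : ℝ) ≤ (N : ℝ) ^ (2 * c)) →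
      p (fun m => ∑ x ∈ m.divisorsAntidiagonal, γ x.1 *
        ∑ y ∈ x.2.divisorsAntidiagonal, (if A₁ ≤ y.1 ∧ y.1 < A₂ then 1 else 0) * (if B₁ ≤ y.2 ∧ y.2 < B₂ then 1 else 0)) ≤ X

theorem Loc.congr {N : ℕ} {p : Seminorm ℝ (ℕ → ℝ)} (h : Loc N p) {P Q : ℕ → ℝ} (hPQ : ∀ m, 1 ≤ m → m ≤ N → P m = Q m) : p P = p Q := by
  have key : ∀ P Q : ℕ → ℝ, (∀ m, 1 ≤ m → m ≤ N → P m = Q m) → p P ≤ p Q := by
    intro P Q hPQ
    have h1 : p (P - Q) = 0 := h _ fun m h1 h2 => by rw [Pi.sub_apply, hPQ m h1 h2, sub_self]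
    have h2 := map_add_le_add p (P - Q) Q
    rw [sub_add_cancel, h1, zero_add] at h2
    exact h2
  exact le_antisymm (key P Q hPQ) (key Q P fun m h1 h2 => (hPQ m h1 h2).symm)

/-- The conditions on the parameters: `2 ^ L > N`, `2 ^ u` is about `N ^ c`, `2 ^ v` about `N ^ (1 / 2 - η)`, at most `r` factors, `V = N ^ (small)`. -/
structure Par (c η : ℝ) (N L u v r : ℕ) (V : ℝ) : Prop where
  hN : 1 ≤ N
  hL : N < 2 ^ L
  hu : 0 < u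
  hc : (N : ℝ) ^ c ≤ 2 ^ u
  hv : (2 : ℝ) ^ (v + r) ≤ (N : ℝ) ^ (1 / 2 - η)
  hq : (2 : ℝ) ^ (u + r) ≤ (N : ℝ) ^ (2 * c)
  hqN : (N : ℝ) ^ (2 * c) ≤ N
  hA : (N : ℝ) ^ (1 / 2 - 2 * η) ≤ 2 ^ (v + 1)
  hB : (2 : ℝ) ^ (L - v) ≤ (N : ℝ) ^ (1 / 2 + 2 * η)
  huv : 2 * u ≤ v + 1
  h3v : L ≤ 3 * (v + 1)
  hV : 1 ≤ V
  hVL : (L : ℝ) + 1 ≤ V
  hVr : (r : ℝ) + 1 ≤ V
  hVd : ∀ n : ℕ, 1 ≤ n → n ≤ N → (n.divisors.card : ℝ) ≤ V
  hVlog : Real.log N ≤ V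

end Pool.Agent.Lib.H81A
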