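import Pool.Agent.Lib.H81A.Defs
import Pool.Agent.Lib.H21AP.DivisorBound

/-!
# H81A, chunk NU (M/L): choice of the parameters
-/

namespace Pool.Agent.Lib.H81A

open Finset ArithmeticFunction

theorem nu_pow {N : ℕ} (hN : 1 ≤ N) (x : ℝ) : (N : ℝ) ^ x = 2 ^ (x * Real.logb 2 N) := by
  have h1 : (0 : ℝ) < N := by exact_mod_cast hN
  have h2 : (2 : ℝ) ^ (Real.logb 2 N) = N := Real.rpow_logb (by norm_num) (by norm_num) h1
  rw [mul_comm, Real.rpow_mul (by norm_num), h2]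

theorem nu_le (a : ℕ) {y : ℝ} (h : (a : ℝ) ≤ y) : (2 : ℝ) ^ a ≤ 2 ^ y := by
  rw [← Real.rpow_natCast]
  exact Real.rpow_le_rpow_of_exponent_le (by norm_num) h

theorem nu_ge (a : ℕ) {y : ℝ} (h : y ≤ (a : ℝ)) : (2 : ℝ) ^ y ≤ 2 ^ a := by
  rw [← Real.rpow_natCast]
  exact Real.rpow_le_rpow_of_exponent_le (by norm_num) h

/-- PROOF. `J` with `1 / J < c`, `J ≥ 1`; `r = 2 J`; `e = ε / (2 (6 J + 2))`, `V = N ^ e`; `L = Nat.log 2 N + 1` (`N < 2 ^ L ≤ 2 N`), `u = ⌈c log_2 N⌉`, `v = ⌊(1 / 2 - η) log_2 N⌋ - r`, `z = ⌊N ^ (1 / J)⌋`. For `N` large: `N ^ c ≤ 2 ^ u ≤ 2 N ^ c`,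
`2 ^ (u + r) ≤ 2 ^ (r + 1) N ^ c ≤ N ^ (2 c)`; `N ^ (1 / 2 - η) 2 ^ (-r - 1) ≤ 2 ^ v ≤ N ^ (1 / 2 - η) 2 ^ (-r)`, so `2 ^ (v + 1) ≥ N ^ (1 / 2 - 2 η)` and `2 ^ (L - v) ≤ 2 ^ (r + 2) N ^ (1 / 2 + η) ≤ N ^ (1 / 2 + 2 η)`; `2 u ≤ v + 1` because `2 c < 1 / 2 - η`; `L ≤ 3 (v + 1)` because
`3 (1 / 2 - η) > 1`; divisor bound `Pool.Agent.Lib.H21AP.divisor_bound` (Lib/H21AP/DivisorBound.lean, import it) with the exponent `e / 2`; `log`, `L` and constants are below `N ^ e` (`isLittleO_log_rpow_atTop`); `(z + 1) ^ J > N`, `z ≤ N ^ (1 / J) < N ^ c ≤ 2 ^ u`;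
`2 ^ J V ^ (6 J + 2) = 2 ^ J N ^ (ε / 2) ≤ N ^ ε`. -/
theorem params (c η ε : ℝ) (hc : 0 < c) (hη : 0 < η) (hcη : 4 * c + 4 * η ≤ 1 / 3) (hε : 0 < ε) : ∃ J N₀ : ℕ, ∀ N : ℕ, N₀ ≤ N → ∃ (L u v z : ℕ) (V : ℝ),
    Par c η N L u v (2 * J) V ∧ N < (z + 1) ^ J ∧ z < 2 ^ u ∧ 2 ^ J * V ^ (6 * J + 2) ≤ (N : ℝ) ^ ε := by
  obtain ⟨J0, hJ0⟩ := exists_nat_one_div_lt hc
  set J := J0 + 1 with hJdef
  have hJ : 1 / (J : ℝ) < c := by
    rw [hJdef]
    push_cast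
    exact hJ0
  have hJpos : (0 : ℝ) < J := by rw [hJdef]; positivity
  set e := ε / (2 * (6 * (J : ℝ) + 2)) with he
  have hepos : 0 < e := by positivity
  obtain ⟨C, hC, hdiv⟩ := Pool.Agent.Lib.H21AP.divisor_bound (ε := e / 2) (by positivity)
  set r := 2 * J with hr
  have hl : Filter.Tendsto (fun N : ℕ => Real.logb 2 N) Filter.atTop Filter.atTop :=
    (Real.tendsto_logb_atTop (by norm_num)).comp tendsto_natCast_atTop_atTop
  have hpow : ∀ x : ℝ, 0 < x → Filter.Tendsto (fun N : ℕ => (N : ℝ) ^ x) Filter.atTop Filter.atTop :=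
    fun x hx => (tendsto_rpow_atTop hx).comp tendsto_natCast_atTop_atTop
  have e1 := (hl.const_mul_atTop hc).eventually_ge_atTop ((r : ℝ) + 2)
  have e2 := (hl.const_mul_atTop hη).eventually_ge_atTop ((r : ℝ) + 3)
  have e3 := (hl.const_mul_atTop (show (0 : ℝ) < 1 / 4 by norm_num)).eventually_ge_atTop (3 * (r : ℝ) + 3)
  have e4 : ∀ᶠ N : ℕ in Filter.atTop, Real.log N ≤ 1 / 4 * (N : ℝ) ^ e := by
    have h1 := (isLittleO_log_rpow_atTop hepos).def (show (0 : ℝ) < 1 / 4 by norm_num)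
    have h2 := tendsto_natCast_atTop_atTop (R := ℝ) |>.eventually h1
    filter_upwards [h2, Filter.eventually_ge_atTop 1] with N hN hN1
    have h3 : (1 : ℝ) ≤ N := by exact_mod_cast hN1
    rwa [Real.norm_of_nonneg (Real.log_nonneg h3), Real.norm_of_nonneg (by positivity)] at hN
  have e5 := (hpow e hepos).eventually_ge_atTop ((r : ℝ) + 4)
  have e6 := (hpow (e / 2) (by positivity)).eventually_ge_atTop C
  have e7 := (hpow (ε / 2) (by positivity)).eventually_ge_atTop ((2 : ℝ) ^ J)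
  obtain ⟨N₀, hN₀⟩ := Filter.eventually_atTop.1
    (((((((e1.and e2).and e3).and e4).and e5).and e6).and e7).and (Filter.eventually_ge_atTop 2))
  refine ⟨J, N₀, fun N hN => ?_⟩
  obtain ⟨⟨⟨⟨⟨⟨⟨f1, f2⟩, f3⟩, f4⟩, f5⟩, f6⟩, f7⟩, f8⟩ := hN₀ N hN
  have hN1 : 1 ≤ N := by omega
  have hNR : (1 : ℝ) ≤ N := by exact_mod_cast hN1
  have hNR2 : (1 : ℝ) < N := by exact_mod_cast (show 1 < N by omega)
  set l := Real.logb 2 N with hldef
  have hl0 : 0 < l := Real.logb_pos (by norm_num) hNR2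
  have hη' : η ≤ 1 / 12 := by linarith
  have hc' : c ≤ 1 / 12 := by linarith
  have hrJ : (r : ℝ) = 2 * J := by
    rw [hr]
    push_cast
    ring
  have hpw : ∀ x : ℝ, (N : ℝ) ^ x = 2 ^ (x * l) := fun x => nu_pow hN1 x
  -- parameters
  set u := ⌈c * l⌉₊ with hu
  set w := ⌊(1 / 2 - η) * l⌋₊ with hw
  set v := w - r with hv
  have hcl : c * l ≤ 1 / 12 * l := mul_le_mul_of_nonneg_right hc' hl0.le
  have hηl : η * l ≤ 1 / 12 * l := mul_le_mul_of_nonneg_right hη' hl0.le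
  have hw1 : (w : ℝ) ≤ (1 / 2 - η) * l := Nat.floor_le (mul_nonneg (by linarith) hl0.le)
  have hw2 : (1 / 2 - η) * l < w + 1 := Nat.lt_floor_add_one _
  have hw3 : (1 / 2 - η) * l = 1 / 2 * l - η * l := sub_mul _ _ _
  have hr0 : (0 : ℝ) ≤ r := Nat.cast_nonneg r
  have hrl : (r : ℝ) ≤ (w : ℝ) := by linarith
  have hrw : r ≤ w := by exact_mod_cast hrl
  have hvR : (v : ℝ) = w - r := by rw [hv, Nat.cast_sub hrw]
  have hu1 : c * l ≤ u := Nat.le_ceil _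
  have hu2 : (u : ℝ) < c * l + 1 := Nat.ceil_lt_add_one (by positivity)
  have hL1 : ((Nat.log 2 N : ℕ) : ℝ) ≤ l := by
    have h1 : (2 : ℝ) ^ (Nat.log 2 N) ≤ N := by exact_mod_cast Nat.pow_log_le_self 2 (by omega)
    rw [hldef, Real.le_logb_iff_rpow_le (by norm_num) (by linarith), Real.rpow_natCast]
    exact h1
  refine ⟨Nat.log 2 N + 1, u, v, ⌊(N : ℝ) ^ (1 / (J : ℝ))⌋₊, (N : ℝ) ^ e, ?_, ?_, ?_, ?_⟩
  · refine ⟨hN1, ?_, ?_, ?_, ?_, ?_, ?_, ?_, ?_, ?_, ?_, ?_, ?_, ?_, ?_, ?_⟩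
    · exact Nat.lt_pow_succ_log_self (by norm_num) N
    · exact Nat.ceil_pos.2 (by positivity)
    · rw [hpw]
      exact nu_ge _ hu1
    · rw [hpw]
      refine nu_le _ ?_
      push_cast
      rw [hvR]
      linarith
    · rw [hpw]
      refine nu_le _ ?_
      push_cast
      linarith
    · calc (N : ℝ) ^ (2 * c) ≤ (N : ℝ) ^ (1 : ℝ) := Real.rpow_le_rpow_of_exponent_le hNR (by linarith)
        _ = N := Real.rpow_one _
    · rw [hpw]
      refine nu_ge _ ?_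
      push_cast
      rw [hvR]
      linarith
    · rw [hpw]
      refine nu_le _ ?_
      rcases le_or_gt v (Nat.log 2 N + 1) with h | h
      · rw [Nat.cast_sub h]
        push_cast
        rw [hvR]
        linarith
      · have : Nat.log 2 N + 1 - v = 0 := by omega
        rw [this]
        push_cast
        positivity
    · have : (2 * u : ℝ) ≤ (v : ℝ) + 1 := by
        rw [hvR]
        linarith
      exact_mod_cast this
    · have : ((Nat.log 2 N : ℕ) : ℝ) + 1 ≤ 3 * ((v : ℝ) + 1) := by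
        rw [hvR]
        linarith
      exact_mod_cast this
    · exact Real.one_le_rpow hNR hepos.le
    · push_cast
      have h1 : l ≤ 2 * Real.log N := by
        rw [hldef, Real.logb, div_le_iff₀ (Real.log_pos (by norm_num))]
        have h2 : (1 : ℝ) / 2 ≤ Real.log 2 := by
          have := Real.log_two_gt_d9
          linarith
        have h3 : 0 ≤ Real.log N := Real.log_nonneg hNR
        calc Real.log N = Real.log N * 1 := (mul_one _).symm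
          _ ≤ Real.log N * (2 * Real.log 2) := mul_le_mul_of_nonneg_left (by linarith) h3
          _ = 2 * Real.log N * Real.log 2 := by ring
      linarith
    · linarith
    · intro n hn hnN
      refine (hdiv n hn).trans ?_
      have h1 : (n : ℝ) ^ (e / 2) ≤ (N : ℝ) ^ (e / 2) :=
        Real.rpow_le_rpow (Nat.cast_nonneg n) (by exact_mod_cast hnN) (by positivity)
      have h2 : (N : ℝ) ^ e = (N : ℝ) ^ (e / 2) * (N : ℝ) ^ (e / 2) := by
        rw [← Real.rpow_add (by linarith)]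
        congr 1
        ring
      rw [h2]
      exact mul_le_mul f6 h1 (by positivity) (by positivity)
    · have : 0 ≤ (N : ℝ) ^ e := by positivity
      linarith
  · have h1 : (N : ℝ) ^ (1 / (J : ℝ)) < ⌊(N : ℝ) ^ (1 / (J : ℝ))⌋₊ + 1 := Nat.lt_floor_add_one _
    have h2 : ((N : ℝ) ^ (1 / (J : ℝ))) ^ J = N := by
      rw [← Real.rpow_natCast, ← Real.rpow_mul (by linarith), one_div, inv_mul_cancel₀ hJpos.ne', Real.rpow_one]
    have h3 : ((N : ℝ) ^ (1 / (J : ℝ))) ^ J < ((⌊(N : ℝ) ^ (1 / (J : ℝ))⌋₊ : ℝ) + 1) ^ J :=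
      pow_lt_pow_left₀ h1 (by positivity) (by omega)
    rw [h2] at h3
    exact_mod_cast h3
  · have h1 : ((⌊(N : ℝ) ^ (1 / (J : ℝ))⌋₊ : ℕ) : ℝ) ≤ (N : ℝ) ^ (1 / (J : ℝ)) := Nat.floor_le (by positivity)
    have h2 : (N : ℝ) ^ (1 / (J : ℝ)) < (N : ℝ) ^ c := Real.rpow_lt_rpow_of_exponent_lt hNR2 hJ
    have h3 : (N : ℝ) ^ c ≤ 2 ^ u := by
      rw [hpw]
      exact nu_ge _ hu1
    have h4 : ((⌊(N : ℝ) ^ (1 / (J : ℝ))⌋₊ : ℕ) : ℝ) < 2 ^ u := by linarith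
    exact_mod_cast h4
  · have h1 : ((N : ℝ) ^ e) ^ (6 * J + 2) = (N : ℝ) ^ (ε / 2) := by
      rw [← Real.rpow_natCast, ← Real.rpow_mul (by linarith)]
      congr 1
      rw [he]
      push_cast
      field_simp
    rw [h1]
    have h2 : (N : ℝ) ^ ε = (N : ℝ) ^ (ε / 2) * (N : ℝ) ^ (ε / 2) := by
      rw [← Real.rpow_add (by linarith)]
      congr 1
      ring
    rw [h2]
    exact mul_le_mul_of_nonneg_right f7 (by positivity)

end Pool.Agent.Lib.H81A
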