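import Pool.Agent.Lib.H81A.Defs

/-!
# H81A, chunk DY (M): dyadic decomposition of a product
-/

namespace Pool.Agent.Lib.H81A

open Finset ArithmeticFunction

theorem dy_sum (f : ArithmeticFunction ℝ) (L n : ℕ) (hn : n < 2 ^ L) : f n = (∑ k ∈ range L, dy k f) n := by
  have hs : (∑ k ∈ range L, dy k f) n = ∑ k ∈ range L, dy k f n := by
    induction L with
    | zero => simp
    | succ L ih =>
      clear ih hn
      induction (L + 1) with
      | zero => simp
      | succ M ih => rw [Finset.sum_range_succ, Finset.sum_range_succ, ArithmeticFunction.add_apply, ih]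
  rw [hs]
  rcases Nat.eq_zero_or_pos n with rfl | hpos
  · simp
  have hlog : Nat.log 2 n < L := Nat.log_lt_of_lt_pow hpos.ne' hn
  rw [Finset.sum_eq_single_of_mem (Nat.log 2 n) (mem_range.2 hlog)]
  · rw [dy_apply, if_pos ⟨Nat.pow_log_le_self 2 hpos.ne', Nat.lt_pow_succ_log_self (by norm_num) n⟩]
  · intro k _ hk
    rw [dy_apply, if_neg]
    rintro ⟨h1, h2⟩
    apply hk
    exact ((Nat.log_eq_iff (Or.inr ⟨by norm_num, hpos.ne'⟩)).2 ⟨h1, h2⟩).symm

theorem dy_agree {ι : Type} (s : Finset ι) (F G : ι → ArithmeticFunction ℝ) (M : ℕ) (h : ∀ i ∈ s, ∀ n < M, F i n = G i n) :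
    ∀ n < M, (∏ i ∈ s, F i) n = (∏ i ∈ s, G i) n := by
  classical
  induction s using Finset.induction_on with
  | empty => intro n _; simp
  | insert a s ha ih =>
    intro n hn
    rw [Finset.prod_insert ha, Finset.prod_insert ha, mul_apply, mul_apply]
    refine Finset.sum_congr rfl fun x hx => ?_
    rw [Nat.mem_divisorsAntidiagonal] at hx
    have hpos : 0 < n := Nat.pos_of_ne_zero hx.2
    have h1 : x.1 ≤ n := Nat.le_of_dvd hpos ⟨x.2, hx.1.symm⟩
    have h2 : x.2 ≤ n := Nat.le_of_dvd hpos ⟨x.1, by rw [mul_comm]; exact hx.1.symm⟩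
    rw [h a (Finset.mem_insert_self a s) x.1 (lt_of_le_of_lt h1 hn),
      ih (fun i hi => h i (Finset.mem_insert_of_mem hi)) x.2 (lt_of_le_of_lt h2 hn)]

theorem dy_sum_apply {κ : Type} (s : Finset κ) (f : κ → ArithmeticFunction ℝ) (m : ℕ) : (∑ k ∈ s, f k) m = ∑ k ∈ s, f k m := by
  classical
  induction s using Finset.induction_on with
  | empty => simp
  | insert a s ha ih => rw [Finset.sum_insert ha, Finset.sum_insert ha, ArithmeticFunction.add_apply, ih]

/-- PROOF. For `n < 2 ^ L`: `F i n = ∑ k ∈ range L, dy k (F i) n` (`dy_apply`; for `n ≥ 1` exactly one `k`, namely `Nat.log 2 n`; for `n = 0` both sides are `0`). Two families of arithmetic functions which agree on `n < M` have products which agree on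
`n < M` (induction over the finset; `ArithmeticFunction.mul_apply`, divisors of `m` are `≤ m`). Then `Finset.prod_univ_sum`. -/
theorem dyadic {ι : Type} [Fintype ι] [DecidableEq ι] (F : ι → ArithmeticFunction ℝ) (L m : ℕ) (hm : m < 2 ^ L) :
    (∏ i, F i) m = ∑ k ∈ Fintype.piFinset (fun _ : ι => range L), (∏ i, dy (k i) (F i)) m := by
  have h1 := dy_agree (Finset.univ : Finset ι) F (fun i => ∑ k ∈ range L, dy k (F i)) (2 ^ L)
    (fun i _ n hn => dy_sum (F i) L n hn) m hm
  rw [h1, Finset.prod_univ_sum, dy_sum_apply]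

end Pool.Agent.Lib.H81A
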