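import Pool.Agent.Lib.H81A.BX
import Pool.Agent.Lib.H81A.DY

/-!
# H81A, chunk SM (M): one term of Heath-Brown's identity
-/

namespace Pool.Agent.Lib.H81A

open Finset ArithmeticFunction

/-- The factors of the `j`-th term. -/
noncomputable def sm_G (z j : ℕ) : Fin (j + 1) ⊕ (Fin j ⊕ Unit) → ArithmeticFunction ℝ :=
  Sum.elim (fun _ => muV z) (Sum.elim (fun _ => one1) (fun _ => logf))

theorem sm_prod (z j : ℕ) : ∏ i, sm_G z j i = muV z ^ (j + 1) * one1 ^ j * logf := by
  rw [Fintype.prod_sum_type, Fintype.prod_sum_type]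
  simp only [sm_G, Sum.elim_inl, Sum.elim_inr, Finset.prod_const, Finset.card_univ, Fintype.card_fin, Fintype.card_unit, pow_one]
  rw [mul_assoc]

theorem sm_bound {z j N : ℕ} {V : ℝ} (hN : 1 ≤ N) (hV : 1 ≤ V) (hVlog : Real.log N ≤ V) (i : Fin (j + 1) ⊕ (Fin j ⊕ Unit)) (n : ℕ)
    (h1 : 1 ≤ n) (h2 : n ≤ N) : |sm_G z j i n| ≤ V := by
  have hn : n ≠ 0 := by omega
  rcases i with i | i | i
  · show |muV z n| ≤ V
    unfold muV
    rw [af_apply _ hn]
    split_ifs
    · have h3 : |((moebius n : ℤ) : ℝ)| ≤ 1 := by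
        rw [← Int.cast_abs]
        exact_mod_cast abs_moebius_le_one
      exact h3.trans hV
    · rw [abs_zero]
      exact zero_le_one.trans hV
  · show |one1 n| ≤ V
    unfold one1
    rw [af_apply _ hn, abs_one]
    exact hV
  · show |logf n| ≤ V
    unfold logf
    rw [af_apply _ hn, abs_of_nonneg (Real.log_natCast_nonneg n)]
    exact (Real.log_le_log (by exact_mod_cast h1) (by exact_mod_cast h2)).trans hVlog

theorem sm_sum {α : Type} (p : Seminorm ℝ (ℕ → ℝ)) (s : Finset α) (f : α → ℕ → ℝ) {Y : ℝ} (h : ∀ a ∈ s, p (f a) ≤ Y) :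
    p (∑ a ∈ s, f a) ≤ s.card * Y := by
  classical
  induction s using Finset.induction_on with
  | empty =>
    rw [Finset.sum_empty, _root_.map_zero, Finset.card_empty, Nat.cast_zero, zero_mul]
  | insert a s ha ih =>
    rw [Finset.sum_insert ha, Finset.card_insert_of_notMem ha]
    refine (map_add_le_add p _ _).trans ?_
    have h1 := h a (Finset.mem_insert_self a s)
    have h2 := ih fun b hb => h b (Finset.mem_insert_of_mem hb)
    push_cast
    linarith

/-- PROOF. `ι = Fin (j + 1) ⊕ (Fin j ⊕ Unit)`, `G = Sum.elim (fun _ => muV z) (Sum.elim (fun _ => one1) (fun _ => logf))`: the product is `∏ i, G i` (`Fintype.prod_sum_type`, `Finset.prod_const`). `dyadic` for `m ≤ N < 2 ^ L` (`Loc.congr`), subadditivity: the sum over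
`k ∈ Fintype.piFinset (range L)`, at most `L ^ (2 j + 2) ≤ V ^ (2 J)` terms. If some `i = inl _` has `z < 2 ^ k i` then `dy (k i) (muV z) = 0` and the product is `0`; otherwise `2 ^ k i ≤ z < 2 ^ u`, `k i < u`: `box` with `r = 2 J`. `|muV| ≤ 1 ≤ V` (`abs_moebius_le_one`), `|one1| ≤ 1`, `|logf n| ≤ log N ≤ V`. -/
theorem term {c η : ℝ} {N L u v J z : ℕ} {V : ℝ} (par : Par c η N L u v (2 * J) V) (hz : z < 2 ^ u) (p : Seminorm ℝ (ℕ → ℝ)) (hp : Loc N p)
    {X : ℝ} (h2 : H2 c η N p X) (h1 : H1 c N p X) (h3 : H3 c η N p X) {j : ℕ} (hj : j < J) :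
    p (fun m => (muV z ^ (j + 1) * one1 ^ j * logf) m) ≤ V ^ (6 * J + 2) * X := by
  classical
  have hX := t1_X h1
  have hV0 : 0 ≤ V := zero_le_one.trans par.hV
  have hcard : Fintype.card (Fin (j + 1) ⊕ (Fin j ⊕ Unit)) = 2 * j + 2 := by
    rw [Fintype.card_sum, Fintype.card_sum, Fintype.card_fin, Fintype.card_fin, Fintype.card_unit]
    omega
  have h4 : p (fun m => (muV z ^ (j + 1) * one1 ^ j * logf) m) =
      p (∑ k ∈ Fintype.piFinset (fun _ : Fin (j + 1) ⊕ (Fin j ⊕ Unit) => range L), fun m => (∏ i, dy (k i) (sm_G z j i)) m) := by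
    refine hp.congr fun m _ hm => ?_
    rw [← sm_prod, dyadic _ L m (lt_of_le_of_lt hm par.hL), Finset.sum_apply]
  have hY : 0 ≤ V ^ (2 * (2 * J) + 2) * X := mul_nonneg (pow_nonneg hV0 _) hX
  rw [h4]
  have h5 : ∀ k ∈ Fintype.piFinset (fun _ : Fin (j + 1) ⊕ (Fin j ⊕ Unit) => range L),
      p (fun m => (∏ i, dy (k i) (sm_G z j i)) m) ≤ V ^ (2 * (2 * J) + 2) * X := by
    intro k _
    by_cases hk : ∃ i : Fin (j + 1), z < 2 ^ k (Sum.inl i)
    · obtain ⟨i, hi⟩ := hk
      have h6 : dy (k (Sum.inl i)) (sm_G z j (Sum.inl i)) = 0 := by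
        ext n
        rw [dy_apply, ArithmeticFunction.zero_apply]
        split_ifs with h
        · show muV z n = 0
          have hn : n ≠ 0 := by
            have := h.1
            have h7 : 0 < 2 ^ k (Sum.inl i) := pow_pos (by norm_num) _
            omega
          unfold muV
          rw [af_apply _ hn, if_neg (by omega)]
        · rfl
      have h7 : (fun m => (∏ i, dy (k i) (sm_G z j i)) m) = 0 := by
        funext m
        rw [Finset.prod_eq_zero (Finset.mem_univ (Sum.inl i)) h6]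
        rfl
      rw [h7, _root_.map_zero]
      exact hY
    · push Not at hk
      refine box par (by rw [hcard]; omega) p hp h2 h1 h3 k (sm_G z j) (sm_bound par.hN par.hV par.hVlog) fun i => ?_
      rcases i with i | i | i
      · refine Or.inr (Or.inr ?_)
        have h6 : 2 ^ k (Sum.inl i) < 2 ^ u := lt_of_le_of_lt (hk i) hz
        exact (Nat.pow_lt_pow_iff_right (by norm_num)).1 h6
      · exact Or.inl rfl
      · exact Or.inr (Or.inl rfl)
  refine (sm_sum p _ _ h5).trans ?_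
  rw [Fintype.card_piFinset, Finset.prod_const, Finset.card_univ, hcard, Finset.card_range]
  have hL1 : (L : ℝ) ≤ V := by
    have := par.hVL
    linarith
  have h6 : ((L ^ (2 * j + 2) : ℕ) : ℝ) ≤ V ^ (2 * J) := by
    push_cast
    exact (pow_le_pow_left₀ (Nat.cast_nonneg L) hL1 _).trans (pow_le_pow_right₀ par.hV (by omega))
  calc ((L ^ (2 * j + 2) : ℕ) : ℝ) * (V ^ (2 * (2 * J) + 2) * X) ≤ V ^ (2 * J) * (V ^ (2 * (2 * J) + 2) * X) := mul_le_mul_of_nonneg_right h6 hY
    _ = V ^ (6 * J + 2) * X := by ring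

end Pool.Agent.Lib.H81A
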