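import Pool.Agent.Lib.H81A.HB
import Pool.Agent.Lib.H81A.SM
import Pool.Agent.Lib.H81A.NU

/-!
# H81A, the final theorem
-/

namespace Pool.Agent.Lib.H81A

open Finset ArithmeticFunction

/-- **Module A**: Heath-Brown's identity in seminorm form. -/
theorem hb_seminorm (c η ε : ℝ) (hc : 0 < c) (hη : 0 < η) (hcη : 4 * c + 4 * η ≤ 1 / 3) (hε : 0 < ε) : ∃ N₀ : ℕ, ∀ N : ℕ, N₀ ≤ N →
    ∀ p : Seminorm ℝ (ℕ → ℝ), Loc N p → ∀ X : ℝ, H2 c η N p X → H1 c N p X → H3 c η N p X → p (fun m => vonMangoldt m) ≤ (N : ℝ) ^ ε * X := by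
  obtain ⟨J, N₀, h⟩ := params c η ε hc hη hcη hε
  refine ⟨N₀, fun N hN p hp X h2 h1 h3 => ?_⟩
  obtain ⟨L, u, v, z, V, par, hz1, hz2, hV⟩ := h N hN
  have hX : 0 ≤ X := by
    refine le_trans ?_ (h1 1 1 le_rfl (by norm_num) (fun _ => 0) (fun _ => by rw [abs_zero]; exact zero_le_one) (fun q hq => absurd rfl hq))
    exact apply_nonneg p _
  have h4 : p (fun m => vonMangoldt m) = p (∑ j ∈ range J, ((-1 : ℝ) ^ j * (J.choose (j + 1) : ℝ)) • (fun m => (muV z ^ (j + 1) * one1 ^ j * logf) m)) := by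
    refine hp.congr fun m _ hm => ?_
    rw [hb_identity z J m (lt_of_le_of_lt hm hz1), Finset.sum_apply]
    exact Finset.sum_congr rfl fun j _ => rfl
  rw [h4]
  have h5 : ∀ s : Finset ℕ, s ⊆ range J → p (∑ j ∈ s, ((-1 : ℝ) ^ j * (J.choose (j + 1) : ℝ)) • (fun m => (muV z ^ (j + 1) * one1 ^ j * logf) m)) ≤
      ∑ j ∈ s, (J.choose (j + 1) : ℝ) * (V ^ (6 * J + 2) * X) := by
    intro s
    induction s using Finset.induction_on with
    | empty =>
      intro _
      rw [Finset.sum_empty, Finset.sum_empty, _root_.map_zero]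
    | insert j s hj ih =>
      intro hs
      rw [Finset.sum_insert hj, Finset.sum_insert hj]
      refine (map_add_le_add p _ _).trans (add_le_add ?_ (ih fun i hi => hs (Finset.mem_insert_of_mem hi)))
      rw [map_smul_eq_mul, norm_mul, norm_pow, norm_neg, norm_one, one_pow, one_mul, Real.norm_natCast]
      exact mul_le_mul_of_nonneg_left (term par hz2 p hp h2 h1 h3 (Finset.mem_range.1 (hs (Finset.mem_insert_self j s)))) (Nat.cast_nonneg _)
  refine (h5 (range J) (Finset.Subset.refl _)).trans ?_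
  rw [← Finset.sum_mul]
  have h6 : (∑ j ∈ range J, (J.choose (j + 1) : ℝ)) ≤ 2 ^ J := by
    have h7 : (∑ j ∈ range J, J.choose (j + 1)) ≤ 2 ^ J := by
      rw [← Nat.sum_range_choose J, Finset.sum_range_succ' (fun i => J.choose i) J]
      exact Nat.le_add_right _ _
    exact_mod_cast h7
  have hV0 : 0 ≤ V ^ (6 * J + 2) := pow_nonneg (zero_le_one.trans par.hV) _
  calc (∑ j ∈ range J, (J.choose (j + 1) : ℝ)) * (V ^ (6 * J + 2) * X) ≤ 2 ^ J * (V ^ (6 * J + 2) * X) :=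
        mul_le_mul_of_nonneg_right h6 (mul_nonneg hV0 hX)
    _ = (2 ^ J * V ^ (6 * J + 2)) * X := by ring
    _ ≤ (N : ℝ) ^ ε * X := mul_le_mul_of_nonneg_right hV hX

end Pool.Agent.Lib.H81A
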