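import Pool.Agent.Lib.H81A.Defs

/-!
# H81A, chunk BD (S/M): bounds for products
-/

namespace Pool.Agent.Lib.H81A

open Finset ArithmeticFunction

/-- PROOF. Induction over `S`: `|(f * g) n| ≤ ∑ |f a| |g b| ≤ (card of divisors of n) sup |f| sup |g|` (`mul_apply`, `Nat.card_divisorsAntidiagonal` or `Nat.divisorsAntidiagonal` as image of the divisors), the divisors of `n` are in `[1, N]`. -/
theorem bound {ι : Type} (S : Finset ι) (G : ι → ArithmeticFunction ℝ) {B D : ℝ} {N : ℕ} (hB : 1 ≤ B) (hD : 1 ≤ D)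
    (hG : ∀ i ∈ S, ∀ n, 1 ≤ n → n ≤ N → |G i n| ≤ B) (hd : ∀ n : ℕ, 1 ≤ n → n ≤ N → (n.divisors.card : ℝ) ≤ D) {n : ℕ} (hn : 1 ≤ n) (hnN : n ≤ N) :
    |(∏ i ∈ S, G i) n| ≤ (B * D) ^ S.card := by
  classical
  have hBD : 1 ≤ B * D := one_le_mul_of_one_le_of_one_le hB hD
  induction S using Finset.induction_on generalizing n with
  | empty =>
    rw [Finset.prod_empty, Finset.card_empty, pow_zero, ArithmeticFunction.one_apply]
    split_ifs
    · rw [abs_one]
    · rw [abs_zero]
      exact zero_le_one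
  | insert a S ha ih =>
    rw [Finset.prod_insert ha, Finset.card_insert_of_notMem ha, ArithmeticFunction.mul_apply]
    refine (Finset.abs_sum_le_sum_abs _ _).trans ?_
    have h1 : ∀ x ∈ n.divisorsAntidiagonal, |G a x.1 * (∏ i ∈ S, G i) x.2| ≤ B * (B * D) ^ S.card := by
      intro x hx
      obtain ⟨h2, h3⟩ := Nat.mem_divisorsAntidiagonal.1 hx
      have hx1 : x.1 ≠ 0 := by
        intro h
        rw [h, zero_mul] at h2
        exact h3 h2.symm
      have hx2 : x.2 ≠ 0 := by
        intro h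
        rw [h, mul_zero] at h2
        exact h3 h2.symm
      have hl1 : x.1 ≤ n := Nat.le_of_dvd hn ⟨x.2, h2.symm⟩
      have hl2 : x.2 ≤ n := Nat.le_of_dvd hn ⟨x.1, by rw [mul_comm]; exact h2.symm⟩
      rw [abs_mul]
      exact mul_le_mul (hG a (Finset.mem_insert_self a S) x.1 (Nat.one_le_iff_ne_zero.2 hx1) (hl1.trans hnN))
        (ih (fun i hi => hG i (Finset.mem_insert_of_mem hi)) (Nat.one_le_iff_ne_zero.2 hx2) (hl2.trans hnN)) (abs_nonneg _)
        (zero_le_one.trans hB)
    refine (Finset.sum_le_sum h1).trans ?_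
    rw [Finset.sum_const, nsmul_eq_mul]
    have h4 : (n.divisorsAntidiagonal.card : ℝ) ≤ D := by
      have h5 : n.divisorsAntidiagonal.card = n.divisors.card := by
        rw [← Nat.map_div_right_divisors, Finset.card_map]
      rw [h5]
      exact hd n hn hnN
    have h6 : 0 ≤ B * (B * D) ^ S.card := mul_nonneg (zero_le_one.trans hB) (pow_nonneg (zero_le_one.trans hBD) _)
    calc (n.divisorsAntidiagonal.card : ℝ) * (B * (B * D) ^ S.card) ≤ D * (B * (B * D) ^ S.card) := mul_le_mul_of_nonneg_right h4 h6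
      _ = (B * D) ^ (S.card + 1) := by ring

theorem bd_dy (k : ℕ) (f : ArithmeticFunction ℝ) {B : ℝ} {n : ℕ} (h : |f n| ≤ B) : |dy k f n| ≤ B := by
  rw [dy_apply]
  split_ifs
  · exact h
  · rw [abs_zero]
    exact (abs_nonneg _).trans h

end Pool.Agent.Lib.H81A
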