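import Pool.Agent.Lib.H81A.Defs

/-!
# H81A, chunk SU (S/M): supports of products
-/

namespace Pool.Agent.Lib.H81A

open Finset ArithmeticFunction

theorem su_dy {k n : ℕ} {f : ArithmeticFunction ℝ} (h : dy k f n ≠ 0) : 2 ^ k ≤ n ∧ n < 2 ^ (k + 1) := by
  rw [dy_apply] at h
  by_contra h1
  exact h (if_neg h1)

/-- PROOF. Induction over `S` (`Finset.induction_on`): a nonzero value of a product `f * g` at `n` gives `n = a b` with `f a ≠ 0`, `g b ≠ 0` (`mul_apply`, `Finset.exists_ne_zero_of_sum_ne_zero`); the empty product is `1`, nonzero only at `1`. -/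
theorem supp {ι : Type} (S : Finset ι) (k : ι → ℕ) (F : ι → ArithmeticFunction ℝ) {n : ℕ} (h : (∏ i ∈ S, dy (k i) (F i)) n ≠ 0) :
    2 ^ (∑ i ∈ S, k i) ≤ n ∧ n ≤ 2 ^ (∑ i ∈ S, k i + S.card) := by
  classical
  induction S using Finset.induction_on generalizing n with
  | empty =>
    rw [Finset.prod_empty] at h
    have h1 : n = 1 := by
      by_contra h2
      exact h (ArithmeticFunction.one_apply_ne h2)
    rw [h1, Finset.sum_empty, Finset.card_empty]
    exact ⟨le_refl _, le_refl _⟩
  | insert a S ha ih =>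
    rw [Finset.prod_insert ha, ArithmeticFunction.mul_apply] at h
    obtain ⟨x, hx, hx'⟩ := Finset.exists_ne_zero_of_sum_ne_zero h
    obtain ⟨h1, h2⟩ := su_dy (left_ne_zero_of_mul hx')
    obtain ⟨h3, h4⟩ := ih (right_ne_zero_of_mul hx')
    have h5 := (Nat.mem_divisorsAntidiagonal.1 hx).1
    rw [Finset.sum_insert ha, Finset.card_insert_of_notMem ha, ← h5]
    constructor
    · rw [pow_add]
      exact Nat.mul_le_mul h1 h3
    · have e : k a + ∑ i ∈ S, k i + (S.card + 1) = (k a + 1) + (∑ i ∈ S, k i + S.card) := by ring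
      rw [e, pow_add]
      exact Nat.mul_le_mul h2.le h4

end Pool.Agent.Lib.H81A
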