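import Pool.Agent.Lib.H81A.Defs
import Pool.Agent.Lib.H81A.SU
import Pool.Agent.Lib.H81A.BD

/-!
# H81A, chunk T2 (M): boxes with a sub-product in the range
-/

namespace Pool.Agent.Lib.H81A

open Finset ArithmeticFunction

theorem t2_part (A : ℕ → ℝ) {N s r : ℕ} (hA : ∀ a, A a ≠ 0 → 2 ^ s ≤ a ∧ a ≤ 2 ^ (s + r)) {a : ℕ} (ha : 1 ≤ a) (haN : a ≤ N) :
    A a = ∑ t ∈ range (r + 1), (if 2 ^ (s + t) ≤ a ∧ a < 2 ^ (s + t + 1) ∧ a ≤ N then A a else 0) := by
  by_cases h0 : A a = 0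
  · rw [h0]
    symm
    exact Finset.sum_eq_zero (fun t _ => by rw [ite_self])
  · obtain ⟨h1, h2⟩ := hA a h0
    have h3 : s ≤ Nat.log 2 a := (Nat.le_log_iff_pow_le (by norm_num) (by omega)).2 h1
    have h4 : Nat.log 2 a ≤ s + r := by
      have := Nat.log_mono_right (b := 2) h2
      rwa [Nat.log_pow (by norm_num)] at this
    obtain ⟨h5, h6⟩ := (Nat.log_eq_iff (b := 2) (m := Nat.log 2 a) (n := a) (Or.inr ⟨by norm_num, by omega⟩)).1 rfl
    have h7 : s + (Nat.log 2 a - s) = Nat.log 2 a := by omega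
    rw [Finset.sum_eq_single (Nat.log 2 a - s)]
    · rw [if_pos]
      rw [h7]
      exact ⟨h5, h6, haN⟩
    · intro t _ ht
      rw [if_neg]
      rintro ⟨h8, h9, -⟩
      apply ht
      have h10 : Nat.log 2 a = s + t :=
        (Nat.log_eq_iff (Or.inr ⟨by norm_num, by omega⟩)).2 ⟨h8, h9⟩
      omega
    · intro h
      exact absurd (Finset.mem_range.2 (by omega)) h

theorem t2_nonneg {c η : ℝ} {N L u v r : ℕ} {V : ℝ} (par : Par c η N L u v r V) {p : Seminorm ℝ (ℕ → ℝ)} {X : ℝ}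
    (h2 : H2 c η N p X) (huv : u ≤ v + r) : 0 ≤ X := by
  have h := h2 (2 ^ u) 1 par.hc ((pow_le_pow_right₀ (by norm_num) huv).trans par.hv) (le_refl _) (fun _ => 0) (fun _ => 0)
    (fun a => by rw [abs_zero]; exact zero_le_one) (fun a => by rw [abs_zero]; exact zero_le_one)
    (fun a h => absurd rfl h) (fun a h => absurd rfl h)
  exact (apply_nonneg p _).trans h

/-- PROOF. `∏ i, dy (k i) (G i) = A * E`, `A = ∏ i ∈ S`, `E = ∏ i ∈ Sᶜ` (`Finset.prod_mul_prod_compl`). `A` is supported in `[2 ^ s, 2 ^ (s + r)]`, `s = ∑ S` (`supp`; `S.card ≤ r`); on `1 ≤ m ≤ N` (`Loc.congr`) one has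
`(A * E) m = ∑ t ∈ range (r + 1), ∑ l ∈ range L, ∑ x ∈ m.divisorsAntidiagonal, A_t x.1 * E_l x.2`, `A_t a = if 2 ^ (s + t) ≤ a ∧ a < 2 ^ (s + t + 1) ∧ a ≤ N then A a else 0`, `E_l b = if 2 ^ l ≤ b ∧ b < 2 ^ (l + 1) ∧ b ≤ N then E b else 0` (divisors of `m` are in `[1, N]`,
`N < 2 ^ L`). `|A_t| ≤ (V * V) ^ S.card`, `|E_l| ≤ (V * V) ^ (Sᶜ).card` (`bound`, `bd_dy`): divide by these constants (`p` homogeneous) and apply `H2` with `K = 2 ^ (s + t)` (`N ^ c ≤ 2 ^ u ≤ K ≤ 2 ^ (v + r) ≤ N ^ (1 / 2 - η)`), `M = 2 ^ l`. Total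
`(r + 1) L (V * V) ^ (card ι) X ≤ V ^ (2 r + 2) X`; `0 ≤ X` since `H2` holds for `α = β = 0`. (`map_sum_le` for seminorms: `Seminorm` is subadditive, induction, or `map_sum_le_sum`.) -/
theorem type2 {ι : Type} [Fintype ι] [DecidableEq ι] {c η : ℝ} {N L u v r : ℕ} {V : ℝ} (par : Par c η N L u v r V) (hr : Fintype.card ι ≤ r) (p : Seminorm ℝ (ℕ → ℝ)) (hp : Loc N p)
    {X : ℝ} (h2 : H2 c η N p X) (k : ι → ℕ) (G : ι → ArithmeticFunction ℝ) (hG : ∀ i, ∀ n, 1 ≤ n → n ≤ N → |G i n| ≤ V)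
    (S : Finset ι) (hS1 : u ≤ ∑ i ∈ S, k i) (hS2 : ∑ i ∈ S, k i ≤ v) : p (fun m => (∏ i, dy (k i) (G i)) m) ≤ V ^ (2 * r + 2) * X := by
  have hX : 0 ≤ X := t2_nonneg par h2 (by omega)
  have hV0 : 0 < V := lt_of_lt_of_le zero_lt_one par.hV
  obtain ⟨s, hs⟩ : ∃ s, s = ∑ i ∈ S, k i := ⟨_, rfl⟩
  obtain ⟨A, hA⟩ : ∃ A : ArithmeticFunction ℝ, A = ∏ i ∈ S, dy (k i) (G i) := ⟨_, rfl⟩
  obtain ⟨E, hE⟩ : ∃ E : ArithmeticFunction ℝ, E = ∏ i ∈ Sᶜ, dy (k i) (G i) := ⟨_, rfl⟩
  have hprod : ∏ i, dy (k i) (G i) = A * E := by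
    rw [hA, hE, Finset.prod_mul_prod_compl]
  have hScard : S.card ≤ r := (Finset.card_le_univ S).trans hr
  have hsupp : ∀ a, A a ≠ 0 → 2 ^ s ≤ a ∧ a ≤ 2 ^ (s + r) := by
    intro a ha
    rw [hA] at ha
    obtain ⟨h3, h4⟩ := supp S k G ha
    rw [← hs] at h3 h4
    exact ⟨h3, h4.trans (Nat.pow_le_pow_right (by norm_num) (by omega))⟩
  obtain ⟨C1, hC1⟩ : ∃ C1 : ℝ, C1 = (V * V) ^ S.card := ⟨_, rfl⟩
  obtain ⟨C2, hC2⟩ : ∃ C2 : ℝ, C2 = (V * V) ^ (Sᶜ).card := ⟨_, rfl⟩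
  have hC1p : 0 < C1 := by rw [hC1]; positivity
  have hC2p : 0 < C2 := by rw [hC2]; positivity
  have hAb : ∀ n, 1 ≤ n → n ≤ N → |A n| ≤ C1 := by
    intro n h3 h4
    rw [hA, hC1]
    exact bound S _ par.hV par.hV (fun i _ m h5 h6 => bd_dy _ _ (hG i m h5 h6)) par.hVd h3 h4
  have hEb : ∀ n, 1 ≤ n → n ≤ N → |E n| ≤ C2 := by
    intro n h3 h4
    rw [hE, hC2]
    exact bound Sᶜ _ par.hV par.hV (fun i _ m h5 h6 => bd_dy _ _ (hG i m h5 h6)) par.hVd h3 h4
  let α : ℕ → ℕ → ℝ := fun t a => if 2 ^ (s + t) ≤ a ∧ a < 2 ^ (s + t + 1) ∧ a ≤ N then A a else 0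
  let β : ℕ → ℕ → ℝ := fun l a => if 2 ^ l ≤ a ∧ a < 2 ^ (l + 1) ∧ a ≤ N then E a else 0
  have key : p (fun m => (∏ i, dy (k i) (G i)) m) =
      p (∑ t ∈ range (r + 1), ∑ l ∈ range L, fun m => ∑ x ∈ m.divisorsAntidiagonal, α t x.1 * β l x.2) := by
    apply hp.congr
    intro m hm hmN
    rw [hprod, ArithmeticFunction.mul_apply, Finset.sum_apply]
    have e1 : ∀ x ∈ m.divisorsAntidiagonal, A x.1 * E x.2 =
        ∑ t ∈ range (r + 1), ∑ l ∈ range L, α t x.1 * β l x.2 := by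
      intro x hx
      obtain ⟨h3, h4⟩ := Nat.mem_divisorsAntidiagonal.1 hx
      have h5 : 1 ≤ x.1 := by
        rcases Nat.eq_zero_or_pos x.1 with h | h
        · rw [h, zero_mul] at h3
          omega
        · exact h
      have h6 : 1 ≤ x.2 := by
        rcases Nat.eq_zero_or_pos x.2 with h | h
        · rw [h, mul_zero] at h3
          omega
        · exact h
      have h7 : x.1 ≤ N := by nlinarith
      have h8 : x.2 ≤ N := by nlinarith
      have h9 : A x.1 = ∑ t ∈ range (r + 1), α t x.1 := t2_part (fun a => A a) hsupp h5 h7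
      have hL1 : 1 ≤ L := by
        rcases Nat.eq_zero_or_pos L with h | h
        · have := par.hL
          rw [h] at this
          have h10 := par.hN
          omega
        · exact h
      have h10 : E x.2 = ∑ l ∈ range L, β l x.2 := by
        obtain ⟨h13, h14⟩ := (Nat.log_eq_iff (b := 2) (m := Nat.log 2 x.2) (n := x.2)
          (Or.inr ⟨by norm_num, by omega⟩)).1 rfl
        have h15 : Nat.log 2 x.2 < L := by
          rw [Nat.log_lt_iff_lt_pow (by norm_num) (by omega)]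
          exact lt_of_le_of_lt h8 par.hL
        rw [Finset.sum_eq_single (Nat.log 2 x.2)]
        · show E x.2 = if _ then _ else _
          rw [if_pos ⟨h13, h14, h8⟩]
        · intro t _ ht
          show (if _ then _ else _) = (0 : ℝ)
          rw [if_neg]
          rintro ⟨h16, h17, -⟩
          exact ht ((Nat.log_eq_iff (Or.inr ⟨by norm_num, by omega⟩)).2 ⟨h16, h17⟩).symm
        · intro h
          exact absurd (Finset.mem_range.2 h15) h
      rw [h9, h10, Finset.sum_mul_sum]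
    rw [Finset.sum_congr rfl e1, Finset.sum_comm]
    refine Finset.sum_congr rfl (fun t _ => ?_)
    rw [Finset.sum_apply, Finset.sum_comm]
  have hone : ∀ t ∈ range (r + 1), ∀ l ∈ range L,
      p (fun m => ∑ x ∈ m.divisorsAntidiagonal, α t x.1 * β l x.2) ≤ C1 * C2 * X := by
    intro t ht l _
    have ht' := Finset.mem_range.1 ht
    have h3 := h2 (2 ^ (s + t)) (2 ^ l)
      (par.hc.trans (pow_le_pow_right₀ (by norm_num) (by omega)))
      ((pow_le_pow_right₀ (by norm_num) (by omega)).trans par.hv)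
      (one_le_pow₀ (by norm_num)) (fun a => α t a / C1) (fun b => β l b / C2) ?_ ?_ ?_ ?_
    · have e : (fun m : ℕ => ∑ x ∈ m.divisorsAntidiagonal, α t x.1 * β l x.2) =
          (C1 * C2) • (fun m : ℕ => ∑ x ∈ m.divisorsAntidiagonal, α t x.1 / C1 * (β l x.2 / C2)) := by
        funext m
        rw [Pi.smul_apply, smul_eq_mul, Finset.mul_sum]
        refine Finset.sum_congr rfl (fun x _ => ?_)
        field_simp
      rw [e, map_smul_eq_mul, Real.norm_of_nonneg (mul_pos hC1p hC2p).le]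
      exact mul_le_mul_of_nonneg_left h3 (mul_pos hC1p hC2p).le
    · intro a
      rw [abs_div, abs_of_pos hC1p]
      apply div_le_one_of_le₀ _ hC1p.le
      show |if _ then _ else _| ≤ _
      split_ifs with h
      · exact hAb a ((Nat.one_le_two_pow).trans h.1) h.2.2
      · rw [abs_zero]
        exact hC1p.le
    · intro a
      rw [abs_div, abs_of_pos hC2p]
      apply div_le_one_of_le₀ _ hC2p.le
      show |if _ then _ else _| ≤ _
      split_ifs with h
      · exact hEb a ((Nat.one_le_two_pow).trans h.1) h.2.2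
      · rw [abs_zero]
        exact hC2p.le
    · intro a ha
      have h4 : 2 ^ (s + t) ≤ a ∧ a < 2 ^ (s + t + 1) ∧ a ≤ N := by
        by_contra h5
        apply ha
        show (if _ then _ else _) / C1 = 0
        rw [if_neg h5, zero_div]
      constructor
      · exact_mod_cast h4.1
      · have h5 : (a : ℝ) ≤ 2 ^ (s + t + 1) := by exact_mod_cast h4.2.1.le
        rw [pow_succ] at h5
        linarith
    · intro a ha
      have h4 : 2 ^ l ≤ a ∧ a < 2 ^ (l + 1) ∧ a ≤ N := by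
        by_contra h5
        apply ha
        show (if _ then _ else _) / C2 = 0
        rw [if_neg h5, zero_div]
      constructor
      · exact_mod_cast h4.1
      · have h5 : (a : ℝ) ≤ 2 ^ (l + 1) := by exact_mod_cast h4.2.1.le
        rw [pow_succ] at h5
        linarith
  rw [key]
  have hC : C1 * C2 ≤ V ^ (2 * r) := by
    rw [hC1, hC2, ← pow_add, Finset.card_add_card_compl, ← pow_two, ← pow_mul]
    exact pow_le_pow_right₀ par.hV (by omega)
  calc p (∑ t ∈ range (r + 1), ∑ l ∈ range L, fun m => ∑ x ∈ m.divisorsAntidiagonal, α t x.1 * β l x.2)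
      ≤ ∑ t ∈ range (r + 1), p (∑ l ∈ range L, fun m => ∑ x ∈ m.divisorsAntidiagonal, α t x.1 * β l x.2) :=
        Finset.le_sum_of_subadditive p (_root_.map_zero p).le (map_add_le_add p) _ _
    _ ≤ ∑ t ∈ range (r + 1), ∑ l ∈ range L, p (fun m => ∑ x ∈ m.divisorsAntidiagonal, α t x.1 * β l x.2) :=
        Finset.sum_le_sum (fun t _ => Finset.le_sum_of_subadditive p (_root_.map_zero p).le (map_add_le_add p) _ _)
    _ ≤ ∑ t ∈ range (r + 1), ∑ l ∈ range L, C1 * C2 * X :=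
        Finset.sum_le_sum (fun t ht => Finset.sum_le_sum (fun l hl => hone t ht l hl))
    _ = ((r : ℝ) + 1) * L * (C1 * C2 * X) := by
        rw [Finset.sum_const, Finset.sum_const, Finset.card_range, Finset.card_range, nsmul_eq_mul, nsmul_eq_mul]
        push_cast
        ring
    _ ≤ V * V * (V ^ (2 * r) * X) := by
        have h5 : (L : ℝ) ≤ V := by linarith [par.hVL]
        have h6 := par.hVr
        have h7 : C1 * C2 * X ≤ V ^ (2 * r) * X := mul_le_mul_of_nonneg_right hC hX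
        refine mul_le_mul (mul_le_mul h6 h5 (Nat.cast_nonneg _) hV0.le) h7 ?_ (mul_pos hV0 hV0).le
        exact mul_nonneg (mul_pos hC1p hC2p).le hX
    _ = V ^ (2 * r + 2) * X := by ring

end Pool.Agent.Lib.H81A
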