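import Pool.Agent.Lib.H81A.Defs

/-!
# H81A, chunk GR (S/M): greedy choice; Abel summation
-/

namespace Pool.Agent.Lib.H81A

open Finset ArithmeticFunction

/-- PROOF. Take `S ⊆ S₀` with `u ≤ ∑ S` of least cardinality (or induction over `S₀`); `S` is not empty; removing one element `i` gives a sum `< u`, and `k i < u`. -/
theorem greedy {ι : Type} [DecidableEq ι] (k : ι → ℕ) (u : ℕ) (hu : 0 < u) (S₀ : Finset ι) (h1 : ∀ i ∈ S₀, k i < u) (h2 : u ≤ ∑ i ∈ S₀, k i) :
    ∃ S ⊆ S₀, u ≤ ∑ i ∈ S, k i ∧ ∑ i ∈ S, k i < 2 * u := by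
  induction S₀ using Finset.induction_on with
  | empty =>
    rw [Finset.sum_empty] at h2
    omega
  | insert i s hi ih =>
    by_cases h : u ≤ ∑ j ∈ s, k j
    · obtain ⟨S, hS, h3⟩ := ih (fun j hj => h1 j (Finset.mem_insert_of_mem hj)) h
      exact ⟨S, hS.trans (Finset.subset_insert i s), h3⟩
    · refine ⟨insert i s, subset_rfl, h2, ?_⟩
      rw [Finset.sum_insert hi]
      have := h1 i (Finset.mem_insert_self i s)
      omega

/-- PROOF. `B₁ ≥ B₂`: the function is `0`; `X ≥ 0` since `X ≥ p ..` (`apply_nonneg`). `B₁ < B₂`: for all `b`, `(if B₁ ≤ b ∧ b < B₂ then w b else 0) = w B₁ (if B₁ ≤ b ∧ b < B₂ then 1 else 0) + ∑ t ∈ Ico (B₁ + 1) B₂, (w t - w (t - 1)) (if t ≤ b ∧ b < B₂ then 1 else 0)`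
(telescoping sum over `t ∈ Ioc B₁ b`); `Q` is linear, `p` subadditive and homogeneous, the coefficients are `≥ 0` with sum `w (B₂ - 1) ≤ V`. -/
theorem abel (p : Seminorm ℝ (ℕ → ℝ)) (Q : (ℕ → ℝ) →ₗ[ℝ] (ℕ → ℝ)) (X : ℝ) (B₁ B₂ : ℕ)
    (hX : ∀ B, B₁ ≤ B → p (Q (fun b => if B ≤ b ∧ b < B₂ then 1 else 0)) ≤ X) (w : ℕ → ℝ) (hw : Monotone w) (hw0 : 0 ≤ w 0) {V : ℝ} (hV0 : 0 ≤ V)
    (hV : ∀ b, b < B₂ → w b ≤ V) : p (Q (fun b => if B₁ ≤ b ∧ b < B₂ then w b else 0)) ≤ V * X := by
  have hX0 : 0 ≤ X := (apply_nonneg p _).trans (hX B₁ le_rfl)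
  have hw0' : ∀ b, 0 ≤ w b := fun b => hw0.trans (hw (Nat.zero_le b))
  rcases le_or_gt B₂ B₁ with hB | hB
  · have h0 : (fun b : ℕ => if B₁ ≤ b ∧ b < B₂ then w b else 0) = 0 := by
      funext b
      rw [if_neg (by omega)]
      rfl
    rw [h0, _root_.map_zero, _root_.map_zero]
    positivity
  · have key : (fun b : ℕ => if B₁ ≤ b ∧ b < B₂ then w b else 0) =
        w B₁ • (fun b : ℕ => if B₁ ≤ b ∧ b < B₂ then (1 : ℝ) else 0) +
          ∑ t ∈ Finset.Ico (B₁ + 1) B₂, (w t - w (t - 1)) • (fun b : ℕ => if t ≤ b ∧ b < B₂ then (1 : ℝ) else 0) := by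
      funext b
      simp only [Pi.add_apply, Pi.smul_apply, Finset.sum_apply, smul_eq_mul]
      by_cases hb : B₁ ≤ b ∧ b < B₂
      · rw [if_pos hb, if_pos hb, mul_one]
        have h1 : ∑ t ∈ Finset.Ico (B₁ + 1) B₂, (w t - w (t - 1)) * (if t ≤ b ∧ b < B₂ then (1 : ℝ) else 0) =
            ∑ t ∈ Finset.Ico (B₁ + 1) (b + 1), (w t - w (t - 1)) := by
          rw [← Finset.sum_subset (s₁ := Finset.Ico (B₁ + 1) (b + 1)) (s₂ := Finset.Ico (B₁ + 1) B₂)]
          · refine Finset.sum_congr rfl fun t ht => ?_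
            rw [Finset.mem_Ico] at ht
            rw [if_pos ⟨by omega, hb.2⟩, mul_one]
          · intro t ht
            rw [Finset.mem_Ico] at ht ⊢
            omega
          · intro t ht ht'
            rw [Finset.mem_Ico] at ht ht'
            rw [if_neg (by omega), mul_zero]
        rw [h1, Finset.sum_Ico_eq_sum_range]
        have h2 : ∀ m, ∑ i ∈ Finset.range m, (w (B₁ + 1 + i) - w (B₁ + 1 + i - 1)) = w (B₁ + m) - w B₁ := by
          intro m
          induction m with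
          | zero => simp
          | succ m ih =>
            rw [Finset.sum_range_succ, ih]
            have e1 : B₁ + 1 + m - 1 = B₁ + m := by omega
            have e2 : B₁ + 1 + m = B₁ + (m + 1) := by omega
            rw [e1, e2]
            ring
        rw [h2]
        have e3 : B₁ + (b + 1 - (B₁ + 1)) = b := by omega
        rw [e3]
        ring
      · rw [if_neg hb, if_neg hb, mul_zero, zero_add]
        symm
        refine Finset.sum_eq_zero fun t ht => ?_
        rw [Finset.mem_Ico] at ht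
        rw [if_neg (by omega), mul_zero]
    rw [key, map_add, map_smul, map_sum]
    refine (map_add_le_add p _ _).trans ?_
    have h1 : p (w B₁ • Q (fun b : ℕ => if B₁ ≤ b ∧ b < B₂ then (1 : ℝ) else 0)) ≤ w B₁ * X := by
      rw [map_smul_eq_mul, Real.norm_of_nonneg (hw0' _)]
      exact mul_le_mul_of_nonneg_left (hX B₁ le_rfl) (hw0' _)
    have h2 : p (∑ t ∈ Finset.Ico (B₁ + 1) B₂, Q ((w t - w (t - 1)) • (fun b : ℕ => if t ≤ b ∧ b < B₂ then (1 : ℝ) else 0))) ≤
        ∑ t ∈ Finset.Ico (B₁ + 1) B₂, (w t - w (t - 1)) * X := by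
      refine (Finset.le_sum_of_subadditive p (_root_.map_zero p).le (map_add_le_add p) _ _).trans ?_
      refine Finset.sum_le_sum fun t ht => ?_
      rw [Finset.mem_Ico] at ht
      have h3 : 0 ≤ w t - w (t - 1) := sub_nonneg.2 (hw (by omega))
      rw [map_smul, map_smul_eq_mul, Real.norm_of_nonneg h3]
      exact mul_le_mul_of_nonneg_left (hX t (by omega)) h3
    refine (add_le_add h1 h2).trans ?_
    rw [← Finset.sum_mul, ← add_mul]
    refine mul_le_mul_of_nonneg_right ?_ hX0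
    have h4 : ∑ t ∈ Finset.Ico (B₁ + 1) B₂, (w t - w (t - 1)) = w (B₂ - 1) - w B₁ := by
      rw [Finset.sum_Ico_eq_sum_range]
      have h2 : ∀ m, ∑ i ∈ Finset.range m, (w (B₁ + 1 + i) - w (B₁ + 1 + i - 1)) = w (B₁ + m) - w B₁ := by
        intro m
        induction m with
        | zero => simp
        | succ m ih =>
          rw [Finset.sum_range_succ, ih]
          have e1 : B₁ + 1 + m - 1 = B₁ + m := by omega
          have e2 : B₁ + 1 + m = B₁ + (m + 1) := by omega
          rw [e1, e2]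
          ring
      rw [h2]
      congr 2
      omega
    rw [h4]
    have := hV (B₂ - 1) (by omega)
    linarith

end Pool.Agent.Lib.H81A
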