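import Pool.Agent.Lib.H81A.Defs
import Pool.Agent.Lib.H81A.SU
import Pool.Agent.Lib.H81A.BD
import Pool.Agent.Lib.H81A.GR

/-!
# H81A, chunk T3 (M/L): boxes with two long variables
-/

namespace Pool.Agent.Lib.H81A

open Finset ArithmeticFunction

noncomputable def t3_Q (γ h h' : ℕ → ℝ) : ℕ → ℝ :=
  fun m => ∑ x ∈ m.divisorsAntidiagonal, γ x.1 * ∑ y ∈ x.2.divisorsAntidiagonal, h y.1 * h' y.2

noncomputable def t3_L1 (γ h' : ℕ → ℝ) : (ℕ → ℝ) →ₗ[ℝ] (ℕ → ℝ) where
  toFun h := t3_Q γ h h'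
  map_add' h1 h2 := by
    funext m
    simp only [t3_Q, Pi.add_apply, add_mul, Finset.sum_add_distrib, mul_add]
  map_smul' c h := by
    funext m
    simp only [t3_Q, Pi.smul_apply, smul_eq_mul, RingHom.id_apply, Finset.mul_sum]
    refine Finset.sum_congr rfl fun x _ => Finset.sum_congr rfl fun y _ => ?_
    ring

noncomputable def t3_L2 (γ h : ℕ → ℝ) : (ℕ → ℝ) →ₗ[ℝ] (ℕ → ℝ) where
  toFun h' := t3_Q γ h h'
  map_add' h1 h2 := by
    funext m
    simp only [t3_Q, Pi.add_apply, Finset.sum_add_distrib, mul_add]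
  map_smul' c h := by
    funext m
    simp only [t3_Q, Pi.smul_apply, smul_eq_mul, RingHom.id_apply, Finset.mul_sum]
    refine Finset.sum_congr rfl fun x _ => Finset.sum_congr rfl fun y _ => ?_
    ring

theorem t3_w {G : ArithmeticFunction ℝ} {N : ℕ} {V : ℝ} (hV : 1 ≤ V) (hlog : Real.log N ≤ V) (hG : G = one1 ∨ G = logf) :
    ∃ w : ℕ → ℝ, Monotone w ∧ 0 ≤ w 0 ∧ (∀ b, b ≤ N → w b ≤ V) ∧ ∀ n, n ≠ 0 → G n = w n := by
  rcases hG with rfl | rfl
  · exact ⟨fun _ => 1, monotone_const, zero_le_one, fun _ _ => hV, fun n hn => af_apply _ hn⟩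
  · have hmono : Monotone fun n : ℕ => Real.log n := by
      intro a b hab
      show Real.log a ≤ Real.log b
      rcases Nat.eq_zero_or_pos a with rfl | ha
      · rw [Nat.cast_zero, Real.log_zero]
        exact Real.log_natCast_nonneg b
      · exact Real.log_le_log (by exact_mod_cast ha) (by exact_mod_cast hab)
    exact ⟨fun n => Real.log n, hmono, by simp, fun b hb => (hmono hb).trans hlog, fun n hn => af_apply _ hn⟩

/-- PROOF. `s = ∑ j, k j`. If `s ≥ L` the function vanishes on `[1, N]` (`supp`, `N < 2 ^ L`), `p .. = 0` and `0 ≤ X` (`H3` with `γ = 0`, `A₁ = B₁ = 2 ^ (v + 1)`, `A₂ = B₂ = 0`). Otherwise `k i, k j ≥ v + 1` and `k i + k j < L`, so `N ^ (1 / 2 - 2 η) ≤ 2 ^ (v + 1) ≤ 2 ^ k i` and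
`2 ^ (k i + 1) ≤ 2 ^ (L - v) ≤ N ^ (1 / 2 + 2 η)`, the same for `j`. `∏ = γ₀ * (dy (k i) (G i) * dy (k j) (G j))`, `γ₀ = ∏ l ∈ (univ.erase i).erase j`; `γ q = γ₀ q` for `q ≤ N`, `0` for `q > N`: `|γ| ≤ V ^ (2 (card - 2))`, support in `[1, 2 ^ (u + r)]`, `2 ^ (u + r) ≤ N ^ (2 c)`.
If `G i = G j = one1`: `H3`. For `logf`: `abel` once or twice with the linear maps `Q h = fun m => ∑ x ∈ m.divisorsAntidiagonal, γ x.1 * ∑ y ∈ x.2.divisorsAntidiagonal, h y.1 * h' y.2` (in `h` for fixed `h'`, then in `h'` for fixed `h = ` indicator of an interval), upper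
ends `min (2 ^ (k + 1)) (N + 1)`, `w = log`, each costs a factor `V`; the intervals satisfy `A₂ ≤ 2 A₁`, `B₂ ≤ 2 B₁` because they lie in `[2 ^ k, 2 ^ (k + 1))`. Total `V ^ (2 (card - 2)) V ^ 2 X ≤ V ^ (2 r + 2) X`. -/
theorem type3 {ι : Type} [Fintype ι] [DecidableEq ι] {c η : ℝ} {N L u v r : ℕ} {V : ℝ} (par : Par c η N L u v r V) (hr : Fintype.card ι ≤ r) (p : Seminorm ℝ (ℕ → ℝ)) (hp : Loc N p)
    {X : ℝ} (h3 : H3 c η N p X) (k : ι → ℕ) (G : ι → ArithmeticFunction ℝ) (hG : ∀ i, ∀ n, 1 ≤ n → n ≤ N → |G i n| ≤ V)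
    (i j : ι) (hij : i ≠ j) (hi : G i = one1 ∨ G i = logf) (hj : G j = one1 ∨ G j = logf) (hki : v < k i) (hkj : v < k j)
    (hk : ∑ l ∈ (univ.erase i).erase j, k l < u) : p (fun m => (∏ j, dy (k j) (G j)) m) ≤ V ^ (2 * r + 2) * X := by
  have hV0 : (0 : ℝ) ≤ V := zero_le_one.trans par.hV
  set S := (univ.erase i).erase j with hS
  have hji : j ∈ (univ.erase i : Finset ι) := Finset.mem_erase.2 ⟨hij.symm, Finset.mem_univ j⟩
  have hcard : S.card + 2 = Fintype.card ι := by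
    have h1 := Finset.card_erase_add_one hji
    have h2 := Finset.card_erase_add_one (Finset.mem_univ i)
    rw [← hS] at h1
    rw [← Finset.card_univ]
    omega
  have hprod : ∏ l, dy (k l) (G l) = (∏ l ∈ S, dy (k l) (G l)) * (dy (k i) (G i) * dy (k j) (G j)) := by
    rw [← Finset.mul_prod_erase _ _ (Finset.mem_univ i), ← Finset.mul_prod_erase _ _ hji, ← hS]
    ring
  have hsum : ∑ l, k l = ∑ l ∈ S, k l + (k i + k j) := by
    rw [← Finset.add_sum_erase _ _ (Finset.mem_univ i), ← Finset.add_sum_erase _ _ hji, ← hS]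
    ring
  have hX0 : 0 ≤ X := by
    refine (apply_nonneg p _).trans (h3 (2 ^ (v + 1)) 0 (2 ^ (v + 1)) 0 ?_ ?_ ?_ ?_ (by simp) (by simp) (fun _ => 0)
      (fun q => by simp) (fun q hq => absurd rfl hq))
    · push_cast; exact par.hA
    · push_cast; positivity
    · push_cast; exact par.hA
    · push_cast; positivity
  rcases le_or_gt L (∑ l, k l) with hL | hL
  · have h0 : p (fun m => (∏ j, dy (k j) (G j)) m) = 0 := by
      refine hp _ fun m hm hmN => ?_
      by_contra hne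
      have h1 := (supp univ k G hne).1
      have h2 : 2 ^ L ≤ 2 ^ (∑ l, k l) := Nat.pow_le_pow_right (by norm_num) hL
      have h4 := par.hL
      omega
    rw [h0]
    positivity
  · set W : ℝ := (V * V) ^ S.card with hW
    have hVV : 1 ≤ V * V := by nlinarith [par.hV]
    have hW1 : 1 ≤ W := one_le_pow₀ hVV
    have hW0 : 0 < W := by linarith
    set γ₀ := ∏ l ∈ S, dy (k l) (G l) with hγ₀
    set γ : ℕ → ℝ := fun q => if q ≤ N then W⁻¹ * γ₀ q else 0 with hγ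
    have hγ1 : ∀ q, |γ q| ≤ 1 := by
      intro q
      show |if q ≤ N then W⁻¹ * γ₀ q else 0| ≤ 1
      split_ifs with hq
      · rcases Nat.eq_zero_or_pos q with rfl | hq0
        · rw [ArithmeticFunction.map_zero, mul_zero, abs_zero]
          exact zero_le_one
        · rw [abs_mul, abs_of_pos (inv_pos.2 hW0), inv_mul_le_iff₀ hW0, mul_one]
          exact bound S _ par.hV par.hV (fun l _ n hn hnN => bd_dy _ _ (hG l n hn hnN)) par.hVd hq0 hq
      · rw [abs_zero]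
        exact zero_le_one
    have hγ2 : ∀ q : ℕ, γ q ≠ 0 → 1 ≤ q ∧ (q : ℝ) ≤ (N : ℝ) ^ (2 * c) := by
      intro q hq
      have h1 : q ≤ N ∧ γ₀ q ≠ 0 := by
        by_contra h
        apply hq
        show (if q ≤ N then W⁻¹ * γ₀ q else 0) = 0
        split_ifs with h2
        · by_contra h4
          exact h ⟨h2, fun h5 => h4 (by rw [h5, mul_zero])⟩
        · rfl
      obtain ⟨h2, h4⟩ := supp S k G h1.2
      refine ⟨?_, ?_⟩
      · exact le_trans Nat.one_le_two_pow h2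
      · have h5 : q ≤ 2 ^ (u + r) := h4.trans (Nat.pow_le_pow_right (by norm_num) (by omega))
        have h6 : (q : ℝ) ≤ 2 ^ (u + r) := by exact_mod_cast h5
        exact h6.trans par.hq
    obtain ⟨wi, hwi1, hwi2, hwi3, hwi4⟩ := t3_w par.hV par.hVlog hi
    obtain ⟨wj, hwj1, hwj2, hwj3, hwj4⟩ := t3_w par.hV par.hVlog hj
    set A₁ := 2 ^ (k i) with hA₁
    set A₂ := min (2 ^ (k i + 1)) (N + 1) with hA₂
    set B₁ := 2 ^ (k j) with hB₁
    set B₂ := min (2 ^ (k j + 1)) (N + 1) with hB₂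
    have hdy : ∀ (l : ι) (w : ℕ → ℝ), (∀ n, n ≠ 0 → G l n = w n) → ∀ n, n ≠ 0 → n ≤ N →
        dy (k l) (G l) n = if 2 ^ (k l) ≤ n ∧ n < min (2 ^ (k l + 1)) (N + 1) then w n else 0 := by
      intro l w hw n hn hnN
      rw [dy_apply]
      have h1 : (2 ^ (k l) ≤ n ∧ n < 2 ^ (k l + 1)) ↔ (2 ^ (k l) ≤ n ∧ n < min (2 ^ (k l + 1)) (N + 1)) := by
        rw [lt_min_iff]
        constructor
        · rintro ⟨a, b⟩
          exact ⟨a, b, by omega⟩
        · rintro ⟨a, b, -⟩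
          exact ⟨a, b⟩
      by_cases h2 : 2 ^ (k l) ≤ n ∧ n < 2 ^ (k l + 1)
      · rw [if_pos h2, if_pos (h1.1 h2), hw n hn]
      · rw [if_neg h2, if_neg fun h => h2 (h1.2 h)]
    have hfun : p (fun m => (∏ l, dy (k l) (G l)) m) = W * p (t3_Q γ
        (fun a => if A₁ ≤ a ∧ a < A₂ then wi a else 0) (fun b => if B₁ ≤ b ∧ b < B₂ then wj b else 0)) := by
      rw [← Real.norm_of_nonneg hW0.le, ← map_smul_eq_mul p]
      refine hp.congr fun m hm hmN => ?_
      rw [hprod, ArithmeticFunction.mul_apply, Pi.smul_apply, smul_eq_mul, t3_Q, Finset.mul_sum]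
      refine Finset.sum_congr rfl fun x hx => ?_
      have hx' := Nat.mem_divisorsAntidiagonal.1 hx
      have hx1 : x.1 ≤ m := Nat.divisor_le (Nat.fst_mem_divisors_of_mem_antidiagonal hx)
      have hx2 : x.2 ≤ m := Nat.divisor_le (Nat.snd_mem_divisors_of_mem_antidiagonal hx)
      have hγx : γ x.1 = W⁻¹ * γ₀ x.1 := if_pos (hx1.trans hmN)
      rw [hγx, ArithmeticFunction.mul_apply]
      have h1 : ∑ y ∈ x.2.divisorsAntidiagonal, dy (k i) (G i) y.1 * dy (k j) (G j) y.2 =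
          ∑ y ∈ x.2.divisorsAntidiagonal, (if A₁ ≤ y.1 ∧ y.1 < A₂ then wi y.1 else 0) *
            (if B₁ ≤ y.2 ∧ y.2 < B₂ then wj y.2 else 0) := by
        refine Finset.sum_congr rfl fun y hy => ?_
        have hy' := Nat.mem_divisorsAntidiagonal.1 hy
        have hy1 : y.1 ≤ x.2 := Nat.divisor_le (Nat.fst_mem_divisors_of_mem_antidiagonal hy)
        have hy2 : y.2 ≤ x.2 := Nat.divisor_le (Nat.snd_mem_divisors_of_mem_antidiagonal hy)
        have hn1 : y.1 ≠ 0 := fun h => hy'.2 (by rw [← hy'.1, h, zero_mul])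
        have hn2 : y.2 ≠ 0 := fun h => hy'.2 (by rw [← hy'.1, h, mul_zero])
        rw [hdy i wi hwi4 _ hn1 (by omega), hdy j wj hwj4 _ hn2 (by omega)]
      rw [h1]
      have h2 : W * W⁻¹ = 1 := mul_inv_cancel₀ hW0.ne'
      calc γ₀ x.1 * _ = (W * W⁻¹) * (γ₀ x.1 * _) := by rw [h2, one_mul]
        _ = _ := by ring
    have hin : ∀ A B, A₁ ≤ A → B₁ ≤ B → p (t3_Q γ (fun a => if A ≤ a ∧ a < A₂ then 1 else 0)
        (fun b => if B ≤ b ∧ b < B₂ then 1 else 0)) ≤ X := by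
      intro A B hA hB
      have hlow : ∀ l, v < k l → ∀ A : ℕ, 2 ^ (k l) ≤ A → (N : ℝ) ^ (1 / 2 - 2 * η) ≤ (A : ℝ) := by
        intro l hl A hA
        refine par.hA.trans ?_
        have h1 : 2 ^ (v + 1) ≤ A := (Nat.pow_le_pow_right (by norm_num) (by omega)).trans hA
        exact_mod_cast h1
      have hupp : ∀ l, k l + 1 ≤ L - v → ((min (2 ^ (k l + 1)) (N + 1) : ℕ) : ℝ) ≤ (N : ℝ) ^ (1 / 2 + 2 * η) := by
        intro l hl
        refine le_trans ?_ par.hB
        have h1 : min (2 ^ (k l + 1)) (N + 1) ≤ 2 ^ (L - v) :=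
          (min_le_left _ _).trans (Nat.pow_le_pow_right (by norm_num) hl)
        exact_mod_cast h1
      have hdbl : ∀ l A, 2 ^ (k l) ≤ A → min (2 ^ (k l + 1)) (N + 1) ≤ 2 * A := by
        intro l A hA
        refine (min_le_left _ _).trans ?_
        rw [pow_succ]
        omega
      exact h3 A A₂ B B₂ (hlow i hki A hA) (hupp i (by omega)) (hlow j hkj B hB) (hupp j (by omega))
        (hdbl i A hA) (hdbl j B hB) γ hγ1 hγ2
    have hin2 : ∀ A, A₁ ≤ A → p (t3_L1 γ (fun b => if B₁ ≤ b ∧ b < B₂ then wj b else 0)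
        (fun a => if A ≤ a ∧ a < A₂ then 1 else 0)) ≤ V * X := by
      intro A hA
      exact abel p (t3_L2 γ (fun a => if A ≤ a ∧ a < A₂ then 1 else 0)) X B₁ B₂ (fun B hB => hin A B hA hB)
        wj hwj1 hwj2 hV0 (fun b hb => hwj3 b (by rw [hB₂, lt_min_iff] at hb; omega))
    have hin3 : p (t3_L1 γ (fun b => if B₁ ≤ b ∧ b < B₂ then wj b else 0)
        (fun a => if A₁ ≤ a ∧ a < A₂ then wi a else 0)) ≤ V * (V * X) :=
      abel p (t3_L1 γ (fun b => if B₁ ≤ b ∧ b < B₂ then wj b else 0)) (V * X) A₁ A₂ hin2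
        wi hwi1 hwi2 hV0 (fun b hb => hwi3 b (by rw [hA₂, lt_min_iff] at hb; omega))
    rw [hfun]
    calc W * p _ ≤ W * (V * (V * X)) := mul_le_mul_of_nonneg_left hin3 hW0.le
      _ = V ^ (2 * S.card + 2) * X := by
        rw [hW, ← sq, ← pow_mul, pow_add]
        ring
      _ ≤ V ^ (2 * r + 2) * X := mul_le_mul_of_nonneg_right (pow_le_pow_right₀ par.hV (by omega)) hX0

end Pool.Agent.Lib.H81A
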