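import Pool.Agent.Lib.H81A.Defs

/-!
# H81A, chunk HB (M): Heath-Brown's identity
-/

namespace Pool.Agent.Lib.H81A

open Finset ArithmeticFunction

theorem hb_one1 : one1 = ((zeta : ArithmeticFunction ℕ) : ArithmeticFunction ℝ) := by
  ext n
  simp only [one1, af, coe_mk, natCoe_apply, zeta_apply]
  split_ifs <;> simp

theorem hb_logf : logf = ArithmeticFunction.log := by
  ext n
  simp only [logf, af, coe_mk, log_apply]
  split_ifs with h
  · simp [h]
  · rfl

theorem hb_vanish (f g : ArithmeticFunction ℝ) (a b : ℕ) (hf : ∀ n < a, f n = 0)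
    (hg : ∀ n < b, g n = 0) : ∀ n < a * b, (f * g) n = 0 := by
  intro n hn
  rw [mul_apply]
  refine Finset.sum_eq_zero fun p hp => ?_
  rw [Nat.mem_divisorsAntidiagonal] at hp
  by_cases h1 : p.1 < a
  · rw [hf _ h1, zero_mul]
  · by_cases h2 : p.2 < b
    · rw [hg _ h2, mul_zero]
    · exfalso
      have := Nat.mul_le_mul (not_lt.1 h1) (not_lt.1 h2)
      rw [hp.1] at this
      omega

theorem hb_sub (f g : ArithmeticFunction ℝ) (n : ℕ) : (f - g) n = f n - g n := by
  have h : (f - g + g) n = f n := by rw [sub_add_cancel]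
  rw [ArithmeticFunction.add_apply] at h
  linarith

theorem hb_eps (V n : ℕ) (hn : n < V + 1) : (1 - muV V * one1 : ArithmeticFunction ℝ) n = 0 := by
  rcases Nat.eq_zero_or_pos n with rfl | hpos
  · simp
  have h1 : (muV V * one1 : ArithmeticFunction ℝ) n =
      ((moebius : ArithmeticFunction ℝ) * (zeta : ArithmeticFunction ℝ)) n := by
    rw [mul_apply, mul_apply]
    refine Finset.sum_congr rfl fun p hp => ?_
    rw [Nat.mem_divisorsAntidiagonal] at hp
    have hp1 : p.1 ≠ 0 := by
      intro h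
      rw [h, zero_mul] at hp
      exact hp.2 hp.1.symm
    have hle : p.1 ≤ V := by
      have : p.1 ≤ n := Nat.le_of_dvd hpos ⟨p.2, hp.1.symm⟩
      omega
    rw [hb_one1]
    congr 1
    simp only [muV, af, coe_mk, if_neg hp1, if_pos hle, intCoe_apply]
  rw [hb_sub, h1, coe_moebius_mul_coe_zeta]
  simp

theorem hb_pow (f : ArithmeticFunction ℝ) (a : ℕ) (hf : ∀ n < a, f n = 0) (J : ℕ) :
    ∀ n < a ^ J, (f ^ J * vonMangoldt) n = 0 := by
  induction J with
  | zero =>
    intro n hn
    have : n = 0 := by simpa using hn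
    rw [this, ArithmeticFunction.map_zero]
  | succ J ih =>
    intro n hn
    have h := hb_vanish f (f ^ J * vonMangoldt) a (a ^ J) hf ih n (by rwa [pow_succ'] at hn)
    rw [pow_succ', mul_assoc]
    exact h

/-- Evaluation at `m` as an additive map. -/
noncomputable def hb_ev (m : ℕ) : ArithmeticFunction ℝ →+ ℝ where
  toFun f := f m
  map_zero' := rfl
  map_add' _ _ := rfl

theorem hb_scal (f : ArithmeticFunction ℝ) (j c m : ℕ) : hb_ev m ((-1) ^ j * (c : ArithmeticFunction ℝ) * f) = (-1 : ℝ) ^ j * (c : ℝ) * f m := by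
  have h1 : hb_ev m ((c : ArithmeticFunction ℝ) * f) = (c : ℝ) * f m := by
    rw [← nsmul_eq_mul, map_nsmul, nsmul_eq_mul]
    rfl
  induction j with
  | zero => rw [pow_zero, pow_zero, one_mul, one_mul, h1]
  | succ j ih =>
    have e : (-1) ^ (j + 1) * (c : ArithmeticFunction ℝ) * f = -((-1) ^ j * (c : ArithmeticFunction ℝ) * f) := by ring
    rw [e, map_neg, ih]
    ring

/-- PROOF. As `heath_brown` in Lib/H68T/HBI.lean (there `J = 3`, same definitions: its lemmas HBI_one1, HBI_logf, HBI_vanish, HBI_sub, HBI_eps may be copied with names hb_..). `e = 1 - muV z * one1` vanishes on `n ≤ z`, so `e ^ J` vanishes on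
`n < (z + 1) ^ J` (induction on `J`, hb_vanish), so `e ^ J * Λ` vanishes there. The binomial theorem (`add_pow` for `(-(muV z * one1) + 1) ^ J`, commutative ring; `Finset.sum_range_succ'` separates the term `1`) and `Λ * one1 = logf` (`vonMangoldt_mul_zeta`) give
`e ^ J * Λ = Λ - ∑ j ∈ range J, (-1) ^ j (J choose (j + 1)) muV ^ (j + 1) one1 ^ j logf`. (Scalars: natural numbers / integers as elements of the ring, or evaluate at `m` with `ArithmeticFunction.sum_apply`-type lemmas; a real constant times an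
arithmetic function may be avoided by working in the ring.) -/
theorem hb_identity (z J m : ℕ) (hm : m < (z + 1) ^ J) :
    vonMangoldt m = ∑ j ∈ range J, (-1 : ℝ) ^ j * (J.choose (j + 1) : ℝ) * (muV z ^ (j + 1) * one1 ^ j * logf) m := by
  have hlog : logf = vonMangoldt * one1 := by
    rw [hb_logf, hb_one1, vonMangoldt_mul_zeta]
  have key : (vonMangoldt : ArithmeticFunction ℝ) = (1 - muV z * one1) ^ J * vonMangoldt +
      ∑ j ∈ range J, (-1) ^ j * ((J.choose (j + 1) : ℕ) : ArithmeticFunction ℝ) * (muV z ^ (j + 1) * one1 ^ j * logf) := by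
    have e1 : (1 - muV z * one1 : ArithmeticFunction ℝ) = -(muV z * one1) + 1 := by ring
    rw [e1, add_pow, Finset.sum_range_succ', add_mul, Finset.sum_mul]
    have e2 : ∀ j ∈ range J, (-1) ^ j * ((J.choose (j + 1) : ℕ) : ArithmeticFunction ℝ) * (muV z ^ (j + 1) * one1 ^ j * logf) =
        -((-(muV z * one1)) ^ (j + 1) * 1 ^ (J - (j + 1)) * ((J.choose (j + 1) : ℕ) : ArithmeticFunction ℝ) * vonMangoldt) := by
      intro j _
      rw [hlog, neg_pow (muV z * one1), mul_pow]
      ring
    rw [Finset.sum_congr rfl e2, Finset.sum_neg_distrib]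
    simp
  have h0 : ((1 - muV z * one1) ^ J * vonMangoldt : ArithmeticFunction ℝ) m = 0 :=
    hb_pow _ (z + 1) (hb_eps z) J m hm
  have h1 : hb_ev m (vonMangoldt : ArithmeticFunction ℝ) = hb_ev m ((1 - muV z * one1) ^ J * vonMangoldt) +
      ∑ j ∈ range J, hb_ev m ((-1) ^ j * ((J.choose (j + 1) : ℕ) : ArithmeticFunction ℝ) * (muV z ^ (j + 1) * one1 ^ j * logf)) := by
    rw [← map_sum, ← map_add, ← key]
  have h2 : hb_ev m ((1 - muV z * one1) ^ J * vonMangoldt) = 0 := h0
  have h3 : hb_ev m (vonMangoldt : ArithmeticFunction ℝ) = vonMangoldt m := rfl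
  rw [h3, h2, zero_add] at h1
  rw [h1]
  exact Finset.sum_congr rfl fun j _ => hb_scal _ _ _ _

end Pool.Agent.Lib.H81A
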