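import Pool.Agent.Lib.H81A.Defs
import Pool.Agent.Lib.H81A.SU
import Pool.Agent.Lib.H81A.BD
import Pool.Agent.Lib.H81A.GR

/-!
# H81A, chunk T1 (M): boxes with at most one long variable
-/

namespace Pool.Agent.Lib.H81A

open Finset ArithmeticFunction

/-- The coefficients of a short product, normalised. -/
theorem t1_gam {ι : Type} [DecidableEq ι] {c η : ℝ} {N L u v r : ℕ} {V : ℝ} (par : Par c η N L u v r V) (k : ι → ℕ) (G : ι → ArithmeticFunction ℝ)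
    (hG : ∀ i, ∀ n, 1 ≤ n → n ≤ N → |G i n| ≤ V) (S : Finset ι) (hr : S.card ≤ r) (hS : ∑ i ∈ S, k i < u) :
    ∃ γ : ℕ → ℝ, (∀ q, |γ q| ≤ 1) ∧ (∀ q : ℕ, γ q ≠ 0 → 1 ≤ q ∧ (q : ℝ) ≤ (N : ℝ) ^ (2 * c)) ∧
      ∀ q, 1 ≤ q → q ≤ N → (∏ i ∈ S, dy (k i) (G i)) q = V ^ (2 * r) * γ q := by
  have hV0 : 0 < V ^ (2 * r) := pow_pos (lt_of_lt_of_le zero_lt_one par.hV) _
  refine ⟨fun q => if 1 ≤ q ∧ q ≤ N then (∏ i ∈ S, dy (k i) (G i)) q / V ^ (2 * r) else 0, ?_, ?_, ?_⟩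
  · intro q
    show |if 1 ≤ q ∧ q ≤ N then (∏ i ∈ S, dy (k i) (G i)) q / V ^ (2 * r) else 0| ≤ 1
    split_ifs with h
    · rw [abs_div, abs_of_pos hV0, div_le_one hV0]
      refine (bound S (fun i => dy (k i) (G i)) par.hV par.hV (fun i _ n h1 h2 => bd_dy _ _ (hG i n h1 h2)) par.hVd h.1 h.2).trans ?_
      rw [← pow_two, ← pow_mul]
      exact pow_le_pow_right₀ par.hV (Nat.mul_le_mul_left 2 hr)
    · rw [abs_zero]
      exact zero_le_one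
  · intro q hq
    by_cases h : 1 ≤ q ∧ q ≤ N
    · refine ⟨h.1, ?_⟩
      have h1 : (∏ i ∈ S, dy (k i) (G i)) q ≠ 0 := by
        intro h0
        apply hq
        show (if 1 ≤ q ∧ q ≤ N then (∏ i ∈ S, dy (k i) (G i)) q / V ^ (2 * r) else 0) = 0
        rw [if_pos h, h0, zero_div]
      have h2 := (supp S k G h1).2
      have h3 : 2 ^ (∑ i ∈ S, k i + S.card) ≤ 2 ^ (u + r) := Nat.pow_le_pow_right (by norm_num) (by omega)
      calc (q : ℝ) ≤ ((2 ^ (u + r) : ℕ) : ℝ) := by exact_mod_cast h2.trans h3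
        _ = (2 : ℝ) ^ (u + r) := by push_cast; rfl
        _ ≤ _ := par.hq
    · exact absurd (if_neg h) hq
  · intro q h1 h2
    show _ = V ^ (2 * r) * (if 1 ≤ q ∧ q ≤ N then (∏ i ∈ S, dy (k i) (G i)) q / V ^ (2 * r) else 0)
    rw [if_pos ⟨h1, h2⟩, mul_div_cancel₀ _ hV0.ne']

/-- Convolution with `γ`. -/
noncomputable def t1_Q (γ : ℕ → ℝ) : (ℕ → ℝ) →ₗ[ℝ] (ℕ → ℝ) where
  toFun h := fun m => ∑ x ∈ m.divisorsAntidiagonal, γ x.1 * h x.2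
  map_add' h h' := by
    funext m
    rw [Pi.add_apply, ← Finset.sum_add_distrib]
    exact Finset.sum_congr rfl fun x _ => by rw [Pi.add_apply, mul_add]
  map_smul' a h := by
    funext m
    rw [RingHom.id_apply, Pi.smul_apply, smul_eq_mul, Finset.mul_sum]
    exact Finset.sum_congr rfl fun x _ => by rw [Pi.smul_apply, smul_eq_mul]; ring

/-- The smooth weights. -/
theorem t1_w {f : ArithmeticFunction ℝ} (hf : f = one1 ∨ f = logf) {N : ℕ} {V : ℝ} (hV : 1 ≤ V) (hVlog : Real.log N ≤ V) :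
    ∃ w : ℕ → ℝ, Monotone w ∧ 0 ≤ w 0 ∧ (∀ b, b ≤ N → w b ≤ V) ∧ ∀ n, 1 ≤ n → f n = w n := by
  rcases hf with rfl | rfl
  · exact ⟨fun _ => 1, fun _ _ _ => le_rfl, zero_le_one, fun _ _ => hV, fun n hn => af_apply _ (by omega)⟩
  · have hm : Monotone fun n : ℕ => Real.log (n : ℝ) := by
      intro a b hab
      show Real.log (a : ℝ) ≤ Real.log (b : ℝ)
      rcases Nat.eq_zero_or_pos a with rfl | ha
      · rw [Nat.cast_zero, Real.log_zero]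
        exact Real.log_natCast_nonneg b
      · exact Real.log_le_log (by exact_mod_cast ha) (by exact_mod_cast hab)
    refine ⟨fun n => Real.log n, hm, ?_, fun b hb => (hm hb).trans hVlog, fun n hn => af_apply _ (by omega)⟩
    show 0 ≤ Real.log ((0 : ℕ) : ℝ)
    rw [Nat.cast_zero, Real.log_zero]

theorem t1_X {c : ℝ} {N : ℕ} {p : Seminorm ℝ (ℕ → ℝ)} {X : ℝ} (h1 : H1 c N p X) : 0 ≤ X := by
  refine le_trans ?_ (h1 1 1 le_rfl (by norm_num) (fun _ => 0) (fun _ => by rw [abs_zero]; exact zero_le_one) (fun q hq => absurd rfl hq))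
  exact apply_nonneg p _

theorem t1_div {m N : ℕ} (hm : m ≤ N) {x : ℕ × ℕ} (hx : x ∈ m.divisorsAntidiagonal) : (1 ≤ x.1 ∧ x.1 ≤ N) ∧ (1 ≤ x.2 ∧ x.2 ≤ N) := by
  obtain ⟨h2, h3⟩ := Nat.mem_divisorsAntidiagonal.1 hx
  have hx1 : x.1 ≠ 0 := by
    intro h
    rw [h, zero_mul] at h2
    exact h3 h2.symm
  have hx2 : x.2 ≠ 0 := by
    intro h
    rw [h, mul_zero] at h2
    exact h3 h2.symm
  have hm0 : 0 < m := Nat.pos_of_ne_zero h3
  have hl1 : x.1 ≤ m := Nat.le_of_dvd hm0 ⟨x.2, h2.symm⟩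
  have hl2 : x.2 ≤ m := Nat.le_of_dvd hm0 ⟨x.1, by rw [mul_comm]; exact h2.symm⟩
  exact ⟨⟨Nat.one_le_iff_ne_zero.2 hx1, hl1.trans hm⟩, ⟨Nat.one_le_iff_ne_zero.2 hx2, hl2.trans hm⟩⟩

/-- PROOF. `γ q = (∏ i, dy (k i) (G i)) q` for `q ≤ N` and `0` for `q > N`: `|γ| ≤ (V * V) ^ (card ι) ≤ V ^ (2 r)` (`bound`, `bd_dy`), `γ q ≠ 0` gives `1 ≤ q ≤ 2 ^ (u + r) ≤ N ^ (2 c)` (`supp`). For `1 ≤ m ≤ N` the value at `m` is `∑ x ∈ m.divisorsAntidiagonal, γ x.1 * (if 1 ≤ x.2 ∧ x.2 < 2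
then 1 else 0)` (only `x = (m, 1)` counts). `H1` for `γ / V ^ (2 r)`; `0 ≤ X` from `H1` with `γ = 0`, `B₁ = B₂ = 1`. (`H1` wants `1 ≤ B₁`, `B₂ ≤ 2 B₁`.) -/
theorem type0 {ι : Type} [Fintype ι] [DecidableEq ι] {c η : ℝ} {N L u v r : ℕ} {V : ℝ} (par : Par c η N L u v r V) (hr : Fintype.card ι ≤ r) (p : Seminorm ℝ (ℕ → ℝ)) (hp : Loc N p)
    {X : ℝ} (h1 : H1 c N p X) (k : ι → ℕ) (G : ι → ArithmeticFunction ℝ) (hG : ∀ i, ∀ n, 1 ≤ n → n ≤ N → |G i n| ≤ V)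
    (hk : ∑ i, k i < u) : p (fun m => (∏ i, dy (k i) (G i)) m) ≤ V ^ (2 * r + 2) * X := by
  have hX := t1_X h1
  have hV0 : 0 ≤ V := zero_le_one.trans par.hV
  obtain ⟨γ, hγ1, hγ2, hγ3⟩ := t1_gam par k G hG univ hr hk
  have h4 : p (fun m => (∏ i, dy (k i) (G i)) m) =
      p (V ^ (2 * r) • fun m : ℕ => ∑ x ∈ m.divisorsAntidiagonal, γ x.1 * (if 1 ≤ x.2 ∧ x.2 < 2 then 1 else 0)) := by
    refine hp.congr fun m hm1 hm2 => ?_
    rw [Pi.smul_apply, smul_eq_mul, hγ3 m hm1 hm2, Finset.sum_eq_single (m, 1)]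
    · rw [if_pos ⟨le_rfl, by norm_num⟩, mul_one]
    · intro x hx hne
      have h5 : ¬ (1 ≤ x.2 ∧ x.2 < 2) := by
        intro h
        have h6 : x.2 = 1 := by omega
        obtain ⟨h7, _⟩ := Nat.mem_divisorsAntidiagonal.1 hx
        apply hne
        rw [h6, mul_one] at h7
        exact Prod.ext h7 h6
      rw [if_neg h5, mul_zero]
    · intro h
      exact absurd (Nat.mem_divisorsAntidiagonal.2 ⟨mul_one m, by omega⟩) h
  rw [h4, map_smul_eq_mul, Real.norm_of_nonneg (pow_nonneg hV0 _)]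
  have h5 := h1 1 2 le_rfl (by norm_num) γ hγ1 hγ2
  calc V ^ (2 * r) * _ ≤ V ^ (2 * r) * X := mul_le_mul_of_nonneg_left h5 (pow_nonneg hV0 _)
    _ ≤ V ^ (2 * r + 2) * X := mul_le_mul_of_nonneg_right (pow_le_pow_right₀ par.hV (by omega)) hX

/-- PROOF. `∏ j, dy (k j) (G j) = γ₀ * dy (k i) (G i)`, `γ₀ = ∏ j ∈ univ.erase i`; `γ q = γ₀ q` for `q ≤ N`, `0` for `q > N`; `|γ| ≤ V ^ (2 r)`, `γ q ≠ 0` gives `1 ≤ q ≤ 2 ^ (u + r) ≤ N ^ (2 c)`. If `G i = one1`: `H1` with `B₁ = 2 ^ k i`, `B₂ = 2 ^ (k i + 1)` (`Loc.congr` to replace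
`γ₀` by `γ`). If `G i = logf`: `abel` with the linear map `Q h = fun m => ∑ x ∈ m.divisorsAntidiagonal, γ x.1 * h x.2`, `B₁ = 2 ^ k i`, `B₂ = min (2 ^ (k i + 1)) (N + 1)` (for `m ≤ N` only `x.2 ≤ N` counts), `w b = log b` (`Real.log 0 = 0`; monotone on the
natural numbers), `w b ≤ log N ≤ V` for `b < B₂`; the intervals `[B, B₂)` with `B ≥ 2 ^ k i` satisfy `B₂ ≤ 2 B`. Total `V ^ (2 r) V X`. -/
theorem type1 {ι : Type} [Fintype ι] [DecidableEq ι] {c η : ℝ} {N L u v r : ℕ} {V : ℝ} (par : Par c η N L u v r V) (hr : Fintype.card ι ≤ r) (p : Seminorm ℝ (ℕ → ℝ)) (hp : Loc N p)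
    {X : ℝ} (h1 : H1 c N p X) (k : ι → ℕ) (G : ι → ArithmeticFunction ℝ) (hG : ∀ i, ∀ n, 1 ≤ n → n ≤ N → |G i n| ≤ V)
    (i : ι) (hi : G i = one1 ∨ G i = logf) (hk : ∑ j ∈ univ.erase i, k j < u) : p (fun m => (∏ j, dy (k j) (G j)) m) ≤ V ^ (2 * r + 2) * X := by
  have hX := t1_X h1
  have hV0 : 0 ≤ V := zero_le_one.trans par.hV
  obtain ⟨w, hw1, hw2, hw3, hw4⟩ := t1_w hi (N := N) par.hV par.hVlog
  obtain ⟨γ, hγ1, hγ2, hγ3⟩ := t1_gam par k G hG (univ.erase i) ((Finset.card_erase_le).trans hr) hk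
  have h4 : p (fun m => (∏ j, dy (k j) (G j)) m) =
      p (V ^ (2 * r) • t1_Q γ (fun b => if 2 ^ k i ≤ b ∧ b < min (2 ^ (k i + 1)) (N + 1) then w b else 0)) := by
    refine hp.congr fun m hm1 hm2 => ?_
    rw [← Finset.prod_erase_mul univ (fun j => dy (k j) (G j)) (Finset.mem_univ i), ArithmeticFunction.mul_apply, Pi.smul_apply, smul_eq_mul]
    show _ = V ^ (2 * r) * ∑ x ∈ m.divisorsAntidiagonal, γ x.1 * (if 2 ^ k i ≤ x.2 ∧ x.2 < min (2 ^ (k i + 1)) (N + 1) then w x.2 else 0)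
    rw [Finset.mul_sum]
    refine Finset.sum_congr rfl fun x hx => ?_
    obtain ⟨⟨a1, a2⟩, ⟨b1, b2⟩⟩ := t1_div hm2 hx
    rw [hγ3 x.1 a1 a2, dy_apply, hw4 x.2 b1, mul_assoc]
    congr 2
    have h5 : (x.2 < min (2 ^ (k i + 1)) (N + 1)) ↔ x.2 < 2 ^ (k i + 1) := by
      rw [lt_min_iff]
      exact ⟨fun h => h.1, fun h => ⟨h, by omega⟩⟩
    simp only [h5]
  rw [h4, map_smul_eq_mul, Real.norm_of_nonneg (pow_nonneg hV0 _)]
  have h5 : p (t1_Q γ (fun b => if 2 ^ k i ≤ b ∧ b < min (2 ^ (k i + 1)) (N + 1) then w b else 0)) ≤ V * X := by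
    refine abel p (t1_Q γ) X _ _ (fun B hB => ?_) w hw1 hw2 hV0 (fun b hb => hw3 b ?_)
    · refine h1 B _ ((Nat.one_le_two_pow).trans hB) ?_ γ hγ1 hγ2
      refine (min_le_left _ _).trans ?_
      rw [pow_succ, mul_comm]
      exact Nat.mul_le_mul_left 2 hB
    · have h6 := lt_of_lt_of_le hb (min_le_right _ _)
      omega
  calc V ^ (2 * r) * _ ≤ V ^ (2 * r) * (V * X) := mul_le_mul_of_nonneg_left h5 (pow_nonneg hV0 _)
    _ = V ^ (2 * r + 1) * X := by ring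
    _ ≤ V ^ (2 * r + 2) * X := mul_le_mul_of_nonneg_right (pow_le_pow_right₀ par.hV (by omega)) hX

end Pool.Agent.Lib.H81A
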